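import Pool.Agent.H31Z.OCA.Iter

/-!
# The relative chain condition of the iteration
-/

set_option autoImplicit false
set_option linter.unusedSectionVars false

namespace H31Z.OCA

open Pool.Agent.Helper292.ForceCH Classical

variable {Q I : Type} [Preorder Q] [LinearOrder I] [WellFoundedLT I] {N : I → Stage Q I}

theorem sp_empty : SP (VS N (∅ : Set I)) := by
  intro Y f T hf h
  by_cases h0 : ∃ y ∈ T, (f y).h ≤ h
  · obtain ⟨y, hy, hh⟩ := h0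
    refine ⟨(f y).h, hh, {y}, by simpa using hy, Set.countable_singleton y, fun z hz hzy => ?_⟩
    exact ⟨y, rfl, f z, hf z hz, le_rfl, hzy, fun x hx => ((hf y hy).1 x hx).elim⟩
  · exact ⟨h, le_rfl, ∅, Set.empty_subset _, Set.countable_empty,
      fun z hz hzy => absurd ⟨z, hz, hzy⟩ h0⟩

theorem sp_limit (hQ : SigmaClosed Q) {S : Set I} (hS : IsLowerSet S)
    (h : ∀ b ∈ S, SP (VS N (Set.Iic b))) : SP (VS N S) := by
  intro Y f T hf h0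
  let L : Option I → Set I := fun t => match t with
    | none => ∅
    | some b => Set.Iic b
  have hL : ∀ t, IsLowerSet (L t) := by
    rintro (_ | b)
    · exact isLowerSet_empty
    · exact isLowerSet_Iic b
  let Φ : Option I → Q → Set I → Prop := fun t h C => L t ⊆ S → ∃ B ⊆ T, B.Countable ∧
    (∀ b ∈ B, ∀ x ∈ (f b).p, x.1 ∈ C) ∧ ∀ y ∈ T, (f y).h ≤ h → ∃ b ∈ B, ∃ s ∈ VS N (L t),
      s ≤ res (L t) (f y) ∧ s ≤ res (L t) (f b)
  obtain ⟨h1, hh1, M, hM, H⟩ := closure hQ (Z := I) (Tk := Option I) (fun t => t.toFinset)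
    (by
      intro M hM
      refine ((hM.image some).insert none).mono ?_
      rintro (_ | b) hb
      · exact Or.inl rfl
      · exact Or.inr ⟨b, hb b (by simp), rfl⟩) Φ
    (by
      intro t h h' C H hh hLS
      obtain ⟨B, h1, h2, h3, h4⟩ := H hLS
      exact ⟨B, h1, h2, h3, fun y hy hy' => h4 y hy (hy'.trans hh)⟩)
    (by
      intro t h'
      by_cases hLS : L t ⊆ S
      · have hsp : SP (VS N (L t)) := by
          rcases t with _ | b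
          · exact sp_empty
          · exact h b (hLS (Set.mem_Iic.2 le_rfl))
        obtain ⟨h'', hh, B, h1, h2, h3⟩ := hsp Y (fun y => res (L t) (f y)) T
          (fun y hy => res_mem (hL t) (hf y hy)) h'
        refine ⟨h'', hh, ⋃ b ∈ B, Prod.fst '' ((f b).p : Set (I × Om)),
          h2.biUnion fun b _ => ((f b).p.finite_toSet.image _).countable,
          fun _ => ⟨B, h1, h2, fun b hb x hx => Set.mem_biUnion hb ⟨x, hx, rfl⟩, h3⟩⟩
      · exact ⟨h', le_rfl, ∅, Set.countable_empty, fun h => absurd h hLS⟩) h0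
  have H' : ∀ t : Option I, ∃ B : Set Y, B ⊆ T ∧ B.Countable ∧ ((∀ z ∈ t.toFinset, z ∈ M) →
      L t ⊆ S → (∀ b ∈ B, ∀ x ∈ (f b).p, x.1 ∈ M) ∧ ∀ y ∈ T, (f y).h ≤ h1 → ∃ b ∈ B,
        ∃ s ∈ VS N (L t), s ≤ res (L t) (f y) ∧ s ≤ res (L t) (f b)) := by
    intro t
    by_cases ht : (∀ z ∈ t.toFinset, z ∈ M) ∧ L t ⊆ S
    · obtain ⟨C, hC, hΦ⟩ := H t ht.1
      obtain ⟨B, b1, b2, b3, b4⟩ := hΦ ht.2
      exact ⟨B, b1, b2, fun _ _ => ⟨fun b hb x hx => hC (b3 b hb x hx), b4⟩⟩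
    · exact ⟨∅, Set.empty_subset _, Set.countable_empty, fun a b => absurd ⟨a, b⟩ ht⟩
  choose B hB1 hB2 hB3 using H'
  refine ⟨h1, hh1, ⋃ t ∈ insert none (some '' M), B t, Set.iUnion₂_subset fun t _ => hB1 t,
    ((hM.image some).insert none).biUnion fun t _ => hB2 t, fun y hy hyh => ?_⟩
  obtain ⟨t, ht1, ht2, ht3, ht4⟩ : ∃ t : Option I, t ∈ insert none (some '' M) ∧
      (∀ z ∈ t.toFinset, z ∈ M) ∧ L t ⊆ S ∧ ∀ x ∈ (f y).p, x.1 ∈ M → x.1 ∈ L t := by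
    rcases (((f y).p.image Prod.fst).filter (· ∈ M)).eq_empty_or_nonempty with h' | h'
    · refine ⟨none, Or.inl rfl, by simp, Set.empty_subset _, fun x hx hxM => ?_⟩
      have : x.1 ∈ ((f y).p.image Prod.fst).filter (· ∈ M) :=
        Finset.mem_filter.2 ⟨Finset.mem_image_of_mem _ hx, hxM⟩
      rw [h'] at this
      exact absurd this (Finset.notMem_empty _)
    · have hm := Finset.mem_filter.1 (Finset.max'_mem _ h')
      obtain ⟨x, hx, hx'⟩ := Finset.mem_image.1 hm.1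
      refine ⟨some (Finset.max' _ h'), Or.inr ⟨_, hm.2, rfl⟩, by simpa using hm.2, ?_,
        fun x hx hxM => ?_⟩
      · intro b hb
        exact hS hb (hx' ▸ (hf y hy).1 x hx)
      · exact Finset.le_max' _ _ (Finset.mem_filter.2 ⟨Finset.mem_image_of_mem _ hx, hxM⟩)
  obtain ⟨b1, b2⟩ := hB3 t ht2 ht3
  obtain ⟨b, hb, s, hs, s1, s2⟩ := b2 y hy hyh
  obtain ⟨q, hq, -, q2, q3⟩ := amalg2 ht3 hs (hf y hy) (hf b (hB1 t hb)) s1 s2
    fun a ξ η h1 h2 => Or.inl (ht4 (a, ξ) h1 (b1 b hb (a, η) h2))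
  exact ⟨b, Set.mem_biUnion ht1 hb, q, hq, q2, q3⟩

theorem sp_step (hQ : SigmaClosed Q) {a : I} (h : SP (VS N (Set.Iio a))) :
    SP (VS N (Set.Iic a)) := by
  intro Y f T hf h0
  set V := VS N (Set.Iio a) with hV
  set st := N a with hst
  let Wit : Y → Finset Om → List (Finset ℕ) → List ℕ → Raw Q I → Prop := fun b c d ns s =>
    ∃ ηs : List Om, s ≤ res (Set.Iio a) (f b) ∧ (∀ ξ, (a, ξ) ∈ (f b).p → ξ ∈ c ∨ ξ ∈ ηs) ∧
      List.Forall₂ (fun η u => ∀ n ∈ u, Has (st.y η n) s) ηs d ∧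
      List.Forall₂ (fun η n => Has (st.y η n) s) ηs ns
  have Wmono : ∀ b c d ns s t, Wit b c d ns t → s ≤ t → Wit b c d ns s := by
    rintro b c d ns s t ⟨ηs, h1, h2, h3, h4⟩ hs
    exact ⟨ηs, hs.trans h1, h2, h3.imp fun _ _ H n hn => (H n hn).mono hs,
      h4.imp fun _ _ H => H.mono hs⟩
  let TT : Finset Om → List (Finset ℕ) → List ℕ → Set (Raw Q I) := fun c d ns =>
    {s | ∃ b ∈ T, Wit b c d ns s}
  let Φ : Finset Om × List (Finset ℕ) × List ℕ → Q → Set Om → Prop := fun t h C =>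
    (Good V st → ∃ δ ∈ C, Gd V st (TT t.1 t.2.1) h δ) ∧ (∀ ξ ∈ t.1, Set.Iic ξ ⊆ C) ∧
    ∃ B ⊆ T, B.Countable ∧ ∀ s ∈ V, s ∈ TT t.1 t.2.1 t.2.2 → s.h ≤ h →
      ∃ b ∈ B, ∃ s' ∈ V, s' ≤ s ∧ Wit b t.1 t.2.1 t.2.2 s'
  have hcount : ∀ M : Set Om, M.Countable →
      {t : Finset Om × List (Finset ℕ) × List ℕ | ∀ z ∈ t.1, z ∈ M}.Countable := by
    intro M hM
    have h1 : {c : Finset Om | ∀ z ∈ c, z ∈ M}.Countable := by
      refine ((Set.countable_ofPred_finite_subset hM).preimage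
        (f := fun c : Finset Om => (c : Set Om)) Finset.coe_injective).mono fun c hc => ?_
      exact ⟨c.finite_toSet, fun z hz => hc z hz⟩
    exact (h1.prod (Set.countable_univ (α := List (Finset ℕ) × List ℕ))).mono
      fun t ht => Set.mem_prod.2 ⟨ht, Set.mem_univ _⟩
  obtain ⟨h1, hh1, M, hM, H⟩ := closure hQ (Z := Om) (fun t => t.1) hcount Φ
    (by
      rintro t h h' C ⟨H1, H2, B, b1, b2, b3⟩ hh
      refine ⟨fun hG => ?_, H2, B, b1, b2, fun s hs h1 h2 => b3 s hs h1 (h2.trans hh)⟩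
      obtain ⟨δ, hδ, H⟩ := H1 hG
      exact ⟨δ, hδ, fun ξ h1 ηs h2 pre r h3 h4 h5 => H ξ h1 ηs h2 pre r h3 h4 (h5.trans hh)⟩)
    (by
      rintro ⟨c, d, ns⟩ h'
      obtain ⟨h2, hh2, δ, hδ⟩ : ∃ h2 ≤ h', ∃ δ, Good V st → Gd V st (TT c d) h2 δ := by
        by_cases hG : Good V st
        · obtain ⟨h2, hh2, δ, hδ⟩ := hG.2 (TT c d) h'
          exact ⟨h2, hh2, δ, fun _ => hδ⟩
        · exact ⟨h', le_rfl, Classical.arbitrary Om, fun h => absurd h hG⟩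
      obtain ⟨h3, hh3, B, b1, b2, b3⟩ := h (Y × Raw Q I) Prod.snd
        {x | x.1 ∈ T ∧ x.2 ∈ V ∧ Wit x.1 c d ns x.2} (fun x hx => hx.2.1) h2
      refine ⟨h3, hh3.trans hh2, insert δ (⋃ ξ ∈ c, Set.Iic ξ), ?_, fun hG => ⟨δ, Or.inl rfl, ?_⟩,
        fun ξ hξ z hz => Or.inr (Set.mem_biUnion (Finset.mem_coe.2 hξ) hz), Prod.fst '' B, ?_,
        b2.image _, ?_⟩
      · refine Set.Countable.insert _ (Set.Countable.biUnion c.countable_toSet fun ξ _ => ?_)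
        rw [← Set.Iio_insert]
        exact Set.Countable.insert _ (Set.countable_coe_iff.1 (countable_Iio _))
      · exact fun ξ h1 ηs h2 pre r h4 h5 h6 => hδ hG ξ h1 ηs h2 pre r h4 h5 (h6.trans hh3)
      · rintro _ ⟨x, hx, rfl⟩
        exact (b1 hx).1
      · rintro s hs ⟨b, hb, hW⟩ hsh
        obtain ⟨x, hx, s', hs', h4, h5⟩ := b3 (b, s) ⟨hb, hs, hW⟩ hsh
        exact ⟨x.1, ⟨x, hx, rfl⟩, s', hs', h4, Wmono _ _ _ _ _ _ (b1 hx).2.2 h5⟩) h0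
  have H' : ∀ t : Finset Om × List (Finset ℕ) × List ℕ, ∃ B : Set Y, B ⊆ T ∧ B.Countable ∧
      ((∀ z ∈ t.1, z ∈ M) → ∀ s ∈ V, s ∈ TT t.1 t.2.1 t.2.2 → s.h ≤ h1 →
        ∃ b ∈ B, ∃ s' ∈ V, s' ≤ s ∧ Wit b t.1 t.2.1 t.2.2 s') := by
    intro t
    by_cases ht : ∀ z ∈ t.1, z ∈ M
    · obtain ⟨C, hC, -, -, B, b1, b2, b3⟩ := H t ht
      exact ⟨B, b1, b2, fun _ => b3⟩
    · exact ⟨∅, Set.empty_subset _, Set.countable_empty, fun a => absurd a ht⟩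
  choose B hB1 hB2 hB3 using H'
  have hMdown : ∀ ξ ∈ M, ∀ η ≤ ξ, η ∈ M := by
    intro ξ hξ η hη
    obtain ⟨C, hC, -, H2, -⟩ := H ({ξ}, [], []) (by simpa using hξ)
    exact hC (H2 ξ (Finset.mem_singleton_self ξ) hη)
  refine ⟨h1, hh1, ⋃ t ∈ {t : Finset Om × List (Finset ℕ) × List ℕ | ∀ z ∈ t.1, z ∈ M}, B t,
    Set.iUnion₂_subset fun t _ => hB1 t, (hcount M hM).biUnion fun t _ => hB2 t,
    fun y0 hy0 hyh => ?_⟩
  set w := f y0 with hw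
  have hwV : w ∈ VS N (Set.Iic a) := hf y0 hy0
  let A : Finset Om := (w.p.filter (fun x => x.1 = a)).image Prod.snd
  have hA : ∀ ξ, ξ ∈ A ↔ (a, ξ) ∈ w.p := by
    intro ξ
    simp only [A, Finset.mem_image, Finset.mem_filter]
    constructor
    · rintro ⟨⟨b, η⟩, ⟨h1, rfl⟩, rfl⟩
      exact h1
    · exact fun h1 => ⟨(a, ξ), ⟨h1, rfl⟩, rfl⟩
  have hok := (ok_iff a w).1 (hwV.2 a)
  let c : Finset Om := A.filter (· ∈ M)
  have hc : ∀ z ∈ c, z ∈ M := fun z hz => (Finset.mem_filter.1 hz).2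
  obtain ⟨ξs, hξ1, hξ2⟩ := exists_sorted (A.filter (· ∉ M))
  have hw0 : res (Set.Iio a) w ∈ V := res_mem (isLowerSet_Iio a) hwV
  obtain ⟨r, hr, hrw, hrE⟩ := fin_meet V (A ×ˢ A) (fun j s => j.1 ≠ j.2 → Ed st j.1 j.2 s)
    (fun j s t hs H hne => (H hne).mono hs) (res (Set.Iio a) w) (by
      rintro ⟨ξ, η⟩ hj r hr hrw
      obtain ⟨j1, j2⟩ := Finset.mem_product.1 hj
      by_cases hne : ξ = η
      · exact ⟨r, hr, le_rfl, fun h => absurd hne h⟩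
      · obtain ⟨s, hs, h1, h2⟩ := (hok ⟨ξ, (hA ξ).1 j1⟩).2.2 ξ η ((hA ξ).1 j1) ((hA η).1 j2) hne
          r hr hrw
        exact ⟨s, hs, h1, fun _ => h2⟩) _ hw0 le_rfl
  have hch : ∀ ξ η, ∃ m n, ξ ∈ A → η ∈ A → ξ ≠ η →
      Has (st.y ξ m) r ∧ Has (st.y η n) r ∧ Has (st.K m n) r := by
    intro ξ η
    by_cases hj : ξ ∈ A ∧ η ∈ A ∧ ξ ≠ η
    · obtain ⟨m, n, H⟩ := hrE (ξ, η) (Finset.mem_product.2 ⟨hj.1, hj.2.1⟩) hj.2.2
      exact ⟨m, n, fun _ _ _ => H⟩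
    · exact ⟨0, 0, fun a b c => absurd ⟨a, b, c⟩ hj⟩
  choose mm nn hmn using hch
  let u : Om → Finset ℕ := fun η => (A.filter (· ≠ η)).image fun ξ => nn ξ η
  have hξA : ∀ ξ ∈ ξs, ξ ∈ A := fun ξ hξ => (Finset.mem_filter.1 ((hξ2 ξ).1 hξ)).1
  have hCl : Cl V st.y (TT c (ξs.map u)) [] ξs r := by
    intro s hs hsr ns hns
    refine ⟨s, hs, le_rfl, has_self ⟨y0, hy0, ξs, hsr.trans hrw, fun ξ hξ => ?_, ?_, hns⟩⟩
    · by_cases hξM : ξ ∈ M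
      · exact Or.inl (Finset.mem_filter.2 ⟨(hA ξ).2 hξ, hξM⟩)
      · exact Or.inr ((hξ2 ξ).2 (Finset.mem_filter.2 ⟨(hA ξ).2 hξ, hξM⟩))
    · rw [List.forall₂_map_right_iff, List.forall₂_same]
      intro η hη n hn
      obtain ⟨ξ, hξ, rfl⟩ := Finset.mem_image.1 hn
      obtain ⟨h1, h2⟩ := Finset.mem_filter.1 hξ
      exact ((hmn ξ η h1 (hξA η hη) h2).2.1).mono hsr
  obtain ⟨s1, hs1, hs1r, ns, hns, hT⟩ : ∃ s ∈ V, s ≤ r ∧ ∃ ns,
      List.Forall₂ (fun ξ n => ∃ m, Has (st.y ξ m) s ∧ Has (st.K m n) s) ξs ns ∧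
        Has (TT c (ξs.map u) ([] ++ ns)) s := by
    rcases ξs.eq_nil_or_concat with h' | ⟨l, ξ, h'⟩
    · subst h'
      obtain ⟨s, hs, hsr, H1⟩ := hCl r hr le_rfl [] List.Forall₂.nil
      exact ⟨s, hs, hsr, [], List.Forall₂.nil, H1⟩
    · have hξ : ξ ∈ ξs := by rw [h']; simp
      obtain ⟨k1, k2, -⟩ := hok ⟨ξ, (hA ξ).1 (hξA ξ hξ)⟩
      obtain ⟨C, hC, H1, -⟩ := H (c, ξs.map u, []) hc
      obtain ⟨δ, hδ, hG⟩ := H1 k2
      refine descend hG ξs hξ1 (fun η hη => ?_) [] r hr (hrw.trans k1) (hrw.1.trans hyh) hCl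
      by_contra hlt
      exact (Finset.mem_filter.1 ((hξ2 η).1 hη)).2 (hMdown δ (hC hδ) η (le_of_not_ge hlt))
  rw [List.nil_append] at hT
  obtain ⟨t1, ⟨b0, hb0, hW0⟩, ht1⟩ := hT
  obtain ⟨b, hb, s2, hs2, hs21, ηs, e1, e2, e3, e4⟩ := hB3 (c, ξs.map u, ns) hc s1 hs1
    ⟨b0, hb0, Wmono _ _ _ _ _ _ hW0 ht1⟩ (hs1r.1.trans (hrw.1.trans hyh))
  have hbT : b ∈ T := hB1 _ hb
  have hbV : f b ∈ VS N (Set.Iic a) := hf b hbT
  have hokb := (ok_iff a (f b)).1 (hbV.2 a)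
  have hs2w : s2 ≤ res (Set.Iio a) w := hs21.trans (hs1r.trans hrw)
  have cross : ∀ ξ ∈ A, ∀ η ∈ ηs, Ed st ξ η s2 := by
    intro ξ hξ η hη
    obtain ⟨ξ', hξ', n, k1, k2, m, k3, k4⟩ := align ξs ηs ns e3 e4 hns η hη
    by_cases hne : ξ = ξ'
    · subst hne
      exact ⟨m, n, k3.mono hs21, k2, k4.mono hs21⟩
    · obtain ⟨l1, -, l3⟩ := hmn ξ ξ' hξ (hξA ξ' hξ') hne
      exact ⟨mm ξ ξ', nn ξ ξ', l1.mono (hs21.trans hs1r),
        k1 _ (Finset.mem_image_of_mem _ (Finset.mem_filter.2 ⟨hξ, hne⟩)), l3.mono (hs21.trans hs1r)⟩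
  let q : Raw Q I := ⟨s2.h, s2.p ∪ (w.p ∪ (f b).p)⟩
  have q1 : q ≤ s2 := ⟨le_rfl, Finset.subset_union_left⟩
  have q2 : q ≤ w := ⟨hs2w.1, Finset.subset_union_left.trans Finset.subset_union_right⟩
  have q3 : q ≤ f b := ⟨e1.1, Finset.subset_union_right.trans Finset.subset_union_right⟩
  have hq : ∀ x ∈ q.p, x ∈ s2.p ∨ x ∈ w.p ∨ x ∈ (f b).p := fun x hx => by
    simpa [q] using hx
  have q4 : res (Set.Iio a) q ≤ s2 := res_le q1 hs2.1
  refine ⟨b, Set.mem_biUnion (s := {t : Finset Om × List (Finset ℕ) × List ℕ | ∀ z ∈ t.1, z ∈ M})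
    (x := (c, ξs.map u, ns)) hc hb, q, ⟨fun x hx => ?_, fun e => ?_⟩, q2, q3⟩
  · rcases hq x hx with h' | h' | h'
    · exact le_of_lt (hs2.1 x h')
    · exact hwV.1 x h'
    · exact hbV.1 x h'
  · rcases lt_trichotomy e a with he | he | he
    · refine ok_of_le (hs2.2 e) (res_mono _ q1) fun ξ hξ => ?_
      rcases hq _ hξ with h' | h' | h'
      · exact h'
      · exact hs2w.2 (mem_res.2 ⟨h', he⟩)
      · exact e1.2 (mem_res.2 ⟨h', he⟩)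
    · subst he
      have hq' : ∀ ξ, (e, ξ) ∈ q.p → ξ ∈ A ∨ ((e, ξ) ∈ (f b).p ∧ ξ ∈ ηs) := by
        intro ξ hξ
        rcases hq _ hξ with h' | h' | h'
        · exact absurd (hs2.1 _ h') (lt_irrefl e)
        · exact Or.inl ((hA ξ).2 h')
        · rcases e2 ξ h' with h'' | h''
          · exact Or.inl (Finset.mem_filter.1 h'').1
          · exact Or.inr ⟨h', h''⟩
      rw [ok_iff]
      rintro ⟨ξ0, hξ0⟩
      have hbase : res (Set.Iio e) q ≤ st.base ∧ Good V st := by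
        rcases hq' ξ0 hξ0 with h' | h'
        · obtain ⟨k1, k2, -⟩ := hok ⟨ξ0, (hA ξ0).1 h'⟩
          exact ⟨(res_mono _ q2).trans k1, k2⟩
        · obtain ⟨k1, k2, -⟩ := hokb ⟨ξ0, h'.1⟩
          exact ⟨(res_mono _ q3).trans k1, k2⟩
      refine ⟨hbase.1, hbase.2, fun ξ η h1 h2 hne => ?_⟩
      rcases hq' ξ h1 with k1 | k1 <;> rcases hq' η h2 with k2 | k2
      · exact ((hok ⟨ξ, (hA ξ).1 k1⟩).2.2 ξ η ((hA ξ).1 k1) ((hA η).1 k2) hne).mono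
          (res_mono _ q2)
      · exact ((cross ξ k1 η k2.2).mono q4).fe
      · obtain ⟨m, n, l1, l2, l3⟩ := (cross η k2 ξ k1.2).mono q4
        exact Ed.fe ⟨n, m, l2, l1, by rw [hbase.2.1]; exact l3⟩
      · exact ((hokb ⟨ξ, k1.1⟩).2.2 ξ η k1.1 k2.1 hne).mono (res_mono _ q3)
    · refine ok_none fun ξ hξ => ?_
      rcases hq _ hξ with h' | h' | h'
      · exact absurd (hs2.1 _ h') (not_lt_of_gt he)
      · exact absurd (hwV.1 _ h') (not_le_of_gt he)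
      · exact absurd (hbV.1 _ h') (not_le_of_gt he)

theorem sp_Iio (hQ : SigmaClosed Q) (a : I) : SP (VS N (Set.Iio a)) := by
  induction a using WellFoundedLT.induction with
  | ind a ih => exact sp_limit hQ (isLowerSet_Iio a) fun b hb => sp_step hQ (ih b hb)

end H31Z.OCA
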