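import Pool.Agent.Helper292.ForceCH

/-!
# The open colouring axiom, as a statement and as a sentence of the forcing language

The forcing language is the one of `Pool.Agent.Helper292.ForceCH`: a sentence is the set of the
conditions which force it, a name of a subset of a ground model set `X` is a map `X → Set P`.

An open graph on a second countable space `X` is coded by a countable family of open sets
(`U i m` says that the point `i` lies in the `m`-th open set) and by the set `K` of the pairs
`(m, n)` such that the product of the `m`-th and the `n`-th open set consists of edges.
-/

set_option autoImplicit false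

namespace H31Z.OCA

open Pool.Agent.Helper292.ForceCH

/-- The points `i` and `j` are joined: they lie in basic sets whose product consists of edges. -/
def Edge {X : Type} (U : X → ℕ → Prop) (K : ℕ → ℕ → Prop) (i j : X) : Prop :=
  ∃ m n, U i m ∧ U j n ∧ K m n

/-- Todorcevic's open colouring axiom (open graph axiom): an open graph without loops on a second
countable space has an uncountable complete subgraph, or the space is the union of countably many
sets which contain no edge. -/
def OGA : Prop :=
  ∀ (X : Type) (U : X → ℕ → Prop) (K : ℕ → ℕ → Prop),
    (∀ m n, K m n → K n m) ∧ (∀ i, ¬ Edge U K i i) →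
      (∃ Y : Set X, ¬ Y.Countable ∧ ∀ i j, i ∈ Y ∧ j ∈ Y ∧ i ≠ j → Edge U K i j) ∨
      (∃ F : ℕ → Set X, (∀ i, ∃ n, i ∈ F n) ∧ ∀ n i j, i ∈ F n ∧ j ∈ F n → ¬ Edge U K i j)

section

variable {P : Type} [Preorder P] {X : Type}

/-- `φ or ψ` is `not (not φ and not ψ)`. -/
def fdisj (φ ψ : Set P) : Set P := fnot (fand (fnot φ) (fnot ψ))

/-- The set named by `A` is countable: there is a relation `F ⊆ X × ℕ` which relates each element
of `A` to a number, and which relates no two elements of `X` to the same number. -/
def IsCountableName (A : X → Set P) : Set P :=
  fex fun F : X → ℕ → Set P =>
    fand (fall fun a => fimp (meets (A a)) (fex fun n => meets (F a n)))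
      (fall fun a => fall fun b => fall fun n =>
        fimp (fand (meets (F a n)) (meets (F b n))) (fground (a = b)))

/-- The sentence `Edge U K i j` of the forcing language. -/
def EdgeName (U : X → ℕ → Set P) (K : ℕ → ℕ → Set P) (i j : X) : Set P :=
  fex fun m => fex fun n => fand (meets (U i m)) (fand (meets (U j n)) (meets (K m n)))

end

/-- The sentence `OGA` of the forcing language. (Each set of the extension is in bijection with an
ordinal, hence with a ground model set `X`.) -/
def OGAHolds (P : Type) [Preorder P] : Set P :=
  fall fun X : Type => fall fun U : X → ℕ → Set P => fall fun K : ℕ → ℕ → Set P =>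
    fimp
      (fand (fall fun m => fall fun n => fimp (meets (K m n)) (meets (K n m)))
        (fall fun i => fnot (EdgeName U K i i)))
      (fdisj
        (fex fun Y : X → Set P => fand (fnot (IsCountableName Y))
          (fall fun i => fall fun j =>
            fimp (fand (meets (Y i)) (fand (meets (Y j)) (fground (i ≠ j)))) (EdgeName U K i j)))
        (fex fun F : ℕ → X → Set P => fand (fall fun i => fex fun n => meets (F n i))
          (fall fun n => fall fun i => fall fun j =>
            fimp (fand (meets (F n i)) (meets (F n j))) (fnot (EdgeName U K i j)))))

end H31Z.OCA
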