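import Pool.Agent.Helper292.ForceCH

/-!
# A finite support iteration of posets of finite homogeneous sets over a `σ`-closed base
-/

set_option autoImplicit false
set_option linter.unusedSectionVars false

namespace H31Z.OCA

open Pool.Agent.Helper292.ForceCH Classical

/-- raw conditions -/
structure Raw (Q I : Type) where
  h : Q
  p : Finset (I × Om)

section

variable {Q I : Type} [Preorder Q]

instance : Preorder (Raw Q I) where
  le s t := s.h ≤ t.h ∧ t.p ⊆ s.p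
  le_refl _ := ⟨le_rfl, Finset.Subset.refl _⟩
  le_trans _ _ _ h h' := ⟨h.1.trans h'.1, h'.2.trans h.2⟩

theorem Raw.le_def {s t : Raw Q I} : s ≤ t ↔ s.h ≤ t.h ∧ t.p ⊆ s.p := Iff.rfl

/-- `s` lies below a member of `M` -/
def Has (M : Set (Raw Q I)) (s : Raw Q I) : Prop := ∃ t ∈ M, s ≤ t

theorem Has.mono {M : Set (Raw Q I)} {s t : Raw Q I} (h : Has M t) (hs : s ≤ t) : Has M s := by
  obtain ⟨u, hu, h⟩ := h
  exact ⟨u, hu, hs.trans h⟩

theorem has_self {M : Set (Raw Q I)} {s : Raw Q I} (h : s ∈ M) : Has M s := ⟨s, h, le_rfl⟩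

/-- the data of one stage -/
structure Stage (Q I : Type) where
  base : Raw Q I
  y : Om → ℕ → Set (Raw Q I)
  K : ℕ → ℕ → Set (Raw Q I)

/-- the tuple of points lies in the closure coded by `T` -/
def Cl (V : Set (Raw Q I)) (y : Om → ℕ → Set (Raw Q I)) (T : List ℕ → Set (Raw Q I))
    (pre : List ℕ) (ηs : List Om) (r : Raw Q I) : Prop :=
  ∀ s ∈ V, s ≤ r → ∀ ns, List.Forall₂ (fun η n => Has (y η n) s) ηs ns →
    ∃ s' ∈ V, s' ≤ s ∧ Has (T (pre ++ ns)) s'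

theorem Cl.mono {V : Set (Raw Q I)} {y : Om → ℕ → Set (Raw Q I)} {T : List ℕ → Set (Raw Q I)}
    {pre : List ℕ} {ηs : List Om} {r r' : Raw Q I} (h : Cl V y T pre ηs r) (hr : r' ≤ r) :
    Cl V y T pre ηs r' := fun s hs hsr => h s hs (hsr.trans hr)

/-- genericity of the points above `δ` -/
def Gd (V : Set (Raw Q I)) (st : Stage Q I) (T : List ℕ → Set (Raw Q I)) (h : Q) (δ : Om) : Prop :=
  ∀ ξ, δ ≤ ξ → ∀ ηs : List Om, (∀ η ∈ ηs, η < ξ) → ∀ pre, ∀ r ∈ V, r ≤ st.base → r.h ≤ h →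
    Cl V st.y T pre (ξ :: ηs) r → ∃ s ∈ V, s ≤ r ∧ ∃ m n, Has (st.y ξ m) s ∧ Has (st.K m n) s ∧
      Cl V st.y T (pre ++ [n]) ηs s

/-- good stages -/
def Good (V : Set (Raw Q I)) (st : Stage Q I) : Prop :=
  (∀ m n, st.K m n = st.K n m) ∧ ∀ T h, ∃ h' ≤ h, ∃ δ, Gd V st T h' δ

/-- a decided edge -/
def Ed (st : Stage Q I) (ξ η : Om) (s : Raw Q I) : Prop :=
  ∃ m n, Has (st.y ξ m) s ∧ Has (st.y η n) s ∧ Has (st.K m n) s

theorem Ed.mono {st : Stage Q I} {ξ η : Om} {s t : Raw Q I} (h : Ed st ξ η t) (hs : s ≤ t) :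
    Ed st ξ η s := by
  obtain ⟨m, n, h1, h2, h3⟩ := h
  exact ⟨m, n, h1.mono hs, h2.mono hs, h3.mono hs⟩

/-- a forced edge -/
def FE (V : Set (Raw Q I)) (st : Stage Q I) (ξ η : Om) (w : Raw Q I) : Prop :=
  ∀ r ∈ V, r ≤ w → ∃ s ∈ V, s ≤ r ∧ Ed st ξ η s

theorem FE.mono {V : Set (Raw Q I)} {st : Stage Q I} {ξ η : Om} {s t : Raw Q I}
    (h : FE V st ξ η t) (hs : s ≤ t) : FE V st ξ η s := fun r hr hrs => h r hr (hrs.trans hs)

theorem Ed.fe {V : Set (Raw Q I)} {st : Stage Q I} {ξ η : Om} {s : Raw Q I}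
    (h : Ed st ξ η s) : FE V st ξ η s := fun r hr hrs => ⟨r, hr, le_rfl, h.mono hrs⟩

/-- restriction -/
noncomputable def res (S : Set I) (w : Raw Q I) : Raw Q I := ⟨w.h, w.p.filter (fun x => x.1 ∈ S)⟩

/-- the support lies in `S` -/
def In (S : Set I) (w : Raw Q I) : Prop := ∀ x ∈ w.p, x.1 ∈ S

theorem mem_res {S : Set I} {w : Raw Q I} {x : I × Om} : x ∈ (res S w).p ↔ x ∈ w.p ∧ x.1 ∈ S :=
  Finset.mem_filter

theorem in_res (S : Set I) (w : Raw Q I) : In S (res S w) := fun _ hx => (mem_res.1 hx).2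

theorem le_res (S : Set I) (w : Raw Q I) : w ≤ res S w := ⟨le_rfl, fun _ hx => (mem_res.1 hx).1⟩

theorem res_le {S : Set I} {w t : Raw Q I} (h : w ≤ t) (ht : In S t) : res S w ≤ t :=
  ⟨h.1, fun x hx => mem_res.2 ⟨h.2 hx, ht x hx⟩⟩

theorem res_mono (S : Set I) {w t : Raw Q I} (h : w ≤ t) : res S w ≤ res S t :=
  res_le (h.trans (le_res S t)) (in_res S t)

theorem Has.res {S : Set I} {M : Set (Raw Q I)} (hM : ∀ t ∈ M, In S t) {s : Raw Q I}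
    (h : Has M s) : Has M (res S s) := by
  obtain ⟨t, ht, h⟩ := h
  exact ⟨t, ht, res_le h (hM t ht)⟩

/-- the relative countable chain condition -/
def SP (V : Set (Raw Q I)) : Prop :=
  ∀ (Y : Type) (f : Y → Raw Q I) (T : Set Y), (∀ y ∈ T, f y ∈ V) → ∀ h : Q, ∃ h' ≤ h, ∃ B ⊆ T,
    B.Countable ∧ ∀ y ∈ T, (f y).h ≤ h' → ∃ b ∈ B, ∃ s ∈ V, s ≤ f y ∧ s ≤ f b

theorem meet_c (hQ : SigmaClosed Q) {Tk : Type} (A : Set Tk) (hA : A.Countable) (D : Tk → Set Q)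
    (hD : ∀ t, Down (D t)) (hd : ∀ t h, ∃ h' ≤ h, h' ∈ D t) (h : Q) :
    ∃ h' ≤ h, ∀ t ∈ A, h' ∈ D t := by
  rcases A.eq_empty_or_nonempty with rfl | hne
  · exact ⟨h, le_rfl, fun t ht => ht.elim⟩
  obtain ⟨e, rfl⟩ := hA.exists_eq_range hne
  obtain ⟨q, hq, h1⟩ := meet_countable hQ (fun n => D (e n)) (fun n => hD _) h
    (fun n r _ => hd _ r)
  exact ⟨q, hq, by rintro _ ⟨n, rfl⟩; exact h1 n⟩

theorem closure (hQ : SigmaClosed Q) {Z Tk : Type} (sp : Tk → Finset Z)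
    (hc : ∀ M : Set Z, M.Countable → {t | ∀ z ∈ sp t, z ∈ M}.Countable)
    (Φ : Tk → Q → Set Z → Prop) (hmono : ∀ t h h' C, Φ t h C → h' ≤ h → Φ t h' C)
    (hd : ∀ t h, ∃ h' ≤ h, ∃ C : Set Z, C.Countable ∧ Φ t h' C) (h0 : Q) :
    ∃ h ≤ h0, ∃ M : Set Z, M.Countable ∧ ∀ t, (∀ z ∈ sp t, z ∈ M) → ∃ C ⊆ M, Φ t h C := by
  have step : ∀ x : Q × {M : Set Z // M.Countable}, ∃ x' : Q × {M : Set Z // M.Countable},
      x'.1 ≤ x.1 ∧ x.2.1 ⊆ x'.2.1 ∧ ∀ t, (∀ z ∈ sp t, z ∈ x.2.1) → ∃ C ⊆ x'.2.1, Φ t x'.1 C := by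
    rintro ⟨h, M, hM⟩
    obtain ⟨h', hh', H⟩ := meet_c hQ _ (hc M hM) (fun t => {h | ∃ C : Set Z, C.Countable ∧ Φ t h C})
      (fun t p ⟨C, hC, hp⟩ q hq => ⟨C, hC, hmono _ _ _ _ hp hq⟩) hd h
    choose! C hC hΦ using H
    refine ⟨⟨h', M ∪ ⋃ t ∈ {t | ∀ z ∈ sp t, z ∈ M}, C t, hM.union ((hc M hM).biUnion hC)⟩, hh',
      Set.subset_union_left, fun t ht => ⟨C t, fun z hz => Or.inr ?_, hΦ t ht⟩⟩
    exact Set.mem_biUnion (s := {t | ∀ z ∈ sp t, z ∈ M}) ht hz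
  choose F hF1 hF2 hF3 using step
  let x : ℕ → Q × {M : Set Z // M.Countable} := fun n =>
    Nat.rec (h0, ⟨∅, Set.countable_empty⟩) (fun _ a => F a) n
  obtain ⟨h, hh⟩ := hQ (fun n => (x n).1) (fun n => hF1 (x n))
  have hm : Monotone fun n => (x n).2.1 := monotone_nat_of_le_succ fun n => hF2 (x n)
  refine ⟨h, hh 0, ⋃ n, (x n).2.1, Set.countable_iUnion fun n => (x n).2.2, fun t ht => ?_⟩
  have : ∃ n, ∀ z ∈ sp t, z ∈ (x n).2.1 := by
    choose! k hk using fun z hz => Set.mem_iUnion.1 (ht z hz)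
    exact ⟨(sp t).sup k, fun z hz => hm (Finset.le_sup (f := k) hz) (hk z hz)⟩
  obtain ⟨n, hn⟩ := this
  obtain ⟨C, hC, hΦ⟩ := hF3 (x n) t hn
  exact ⟨C, hC.trans (Set.subset_iUnion (fun n => (x n).2.1) (n + 1)),
    hmono _ _ _ _ hΦ (hh (n + 1))⟩

theorem fin_meet (V : Set (Raw Q I)) {J : Type} (F : Finset J) (D : J → Raw Q I → Prop)
    (mono : ∀ j s t, s ≤ t → D j t → D j s) (w : Raw Q I)
    (hd : ∀ j ∈ F, ∀ r ∈ V, r ≤ w → ∃ s ∈ V, s ≤ r ∧ D j s) :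
    ∀ r ∈ V, r ≤ w → ∃ s ∈ V, s ≤ r ∧ ∀ j ∈ F, D j s := by
  induction F using Finset.induction_on with
  | empty => exact fun r hr _ => ⟨r, hr, le_rfl, by simp⟩
  | insert j F _ ih =>
    intro r hr hrw
    obtain ⟨s, hs, hsr, h1⟩ := ih (fun k hk => hd k (Finset.mem_insert_of_mem hk)) r hr hrw
    obtain ⟨s', hs', hs's, h2⟩ := hd j (Finset.mem_insert_self _ _) s hs (hsr.trans hrw)
    refine ⟨s', hs', hs's.trans hsr, fun k hk => ?_⟩
    rcases Finset.mem_insert.1 hk with rfl | hk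
    · exact h2
    · exact mono _ _ _ hs's (h1 k hk)

theorem descend {V : Set (Raw Q I)} {st : Stage Q I} {T : List ℕ → Set (Raw Q I)} {h : Q} {δ : Om}
    (hG : Gd V st T h δ) (ξs : List Om) (hp : ξs.Pairwise (· > ·)) (hδ : ∀ ξ ∈ ξs, δ ≤ ξ) :
    ∀ pre, ∀ r ∈ V, r ≤ st.base → r.h ≤ h → Cl V st.y T pre ξs r → ∃ s ∈ V, s ≤ r ∧ ∃ ns,
      List.Forall₂ (fun ξ n => ∃ m, Has (st.y ξ m) s ∧ Has (st.K m n) s) ξs ns ∧
        Has (T (pre ++ ns)) s := by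
  induction ξs with
  | nil =>
    intro pre r hr _ _ hC
    obtain ⟨s, hs, hsr, h1⟩ := hC r hr le_rfl [] List.Forall₂.nil
    exact ⟨s, hs, hsr, [], List.Forall₂.nil, h1⟩
  | cons ξ ηs ih =>
    intro pre r hr hb hh hC
    rw [List.pairwise_cons] at hp
    obtain ⟨s, hs, hsr, m, n, h1, h2, h3⟩ := hG ξ (hδ ξ List.mem_cons_self) ηs hp.1 pre r hr hb hh hC
    obtain ⟨s', hs', hs's, ns, h4, h5⟩ := ih hp.2 (fun η hη => hδ η (List.mem_cons_of_mem _ hη))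
      (pre ++ [n]) s hs (hsr.trans hb) (hsr.1.trans hh) h3
    refine ⟨s', hs', hs's.trans hsr, n :: ns,
      List.Forall₂.cons ⟨m, h1.mono hs's, h2.mono hs's⟩ h4, ?_⟩
    simpa using h5

theorem align {α β γ : Type} {u : α → β} {P : α → β → Prop} {R S : α → γ → Prop} (ξs : List α) :
    ∀ (ηs : List α) (ns : List γ), List.Forall₂ P ηs (ξs.map u) → List.Forall₂ R ηs ns →
      List.Forall₂ S ξs ns → ∀ η ∈ ηs, ∃ ξ ∈ ξs, ∃ n, P η (u ξ) ∧ R η n ∧ S ξ n := by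
  induction ξs with
  | nil =>
    intro ηs ns h1 _ _ η hη
    rw [List.map_nil, List.forall₂_nil_right_iff] at h1
    subst h1
    simp at hη
  | cons ξ ξs ih =>
    intro ηs ns h1 h2 h3 η hη
    rw [List.map_cons] at h1
    cases h1 with
    | cons a1 b1 =>
      cases h2 with
      | cons a2 b2 =>
        cases h3 with
        | cons a3 b3 =>
          rcases List.mem_cons.1 hη with rfl | hη
          · exact ⟨ξ, List.mem_cons_self, _, a1, a2, a3⟩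
          · obtain ⟨ξ', h, hn⟩ := ih _ _ b1 b2 b3 η hη
            exact ⟨ξ', List.mem_cons_of_mem _ h, hn⟩

theorem exists_sorted (A : Finset Om) :
    ∃ l : List Om, l.Pairwise (· > ·) ∧ ∀ x, x ∈ l ↔ x ∈ A := by
  induction A using Finset.induction_on_max with
  | empty => exact ⟨[], List.Pairwise.nil, by simp⟩
  | insert a s ha ih =>
    obtain ⟨l, h1, h2⟩ := ih
    refine ⟨a :: l, List.pairwise_cons.2 ⟨fun x hx => ha x ((h2 x).1 hx), h1⟩, fun x => ?_⟩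
    simp [h2]

end

section

variable {Q I : Type} [Preorder Q] [LinearOrder I] [WellFoundedLT I]

/-- validity at a coordinate, given the valid conditions below it -/
def okF (V : Set (Raw Q I)) (st : Stage Q I) (a : I) (w : Raw Q I) : Prop :=
  (∃ ξ, (a, ξ) ∈ w.p) → res (Set.Iio a) w ≤ st.base ∧ Good V st ∧
    ∀ ξ η, (a, ξ) ∈ w.p → (a, η) ∈ w.p → ξ ≠ η → FE V st ξ η (res (Set.Iio a) w)

/-- validity at a coordinate -/
noncomputable def ok (N : I → Stage Q I) (a : I) : Raw Q I → Prop :=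
  (wellFounded_lt (α := I)).fix (C := fun _ => Raw Q I → Prop)
    (fun a rec => okF {r | In (Set.Iio a) r ∧ ∀ b (h : b < a), rec b h r} (N a) a) a

/-- the valid conditions with support in `S` -/
def VS (N : I → Stage Q I) (S : Set I) : Set (Raw Q I) := {r | In S r ∧ ∀ b, ok N b r}

variable {N : I → Stage Q I}

theorem ok_iff0 (a : I) (w : Raw Q I) :
    ok N a w ↔ okF {r | In (Set.Iio a) r ∧ ∀ b, b < a → ok N b r} (N a) a w := by
  unfold ok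
  rw [WellFounded.fix_eq]

theorem ok_none {a : I} {w : Raw Q I} (h : ∀ ξ, (a, ξ) ∉ w.p) : ok N a w :=
  (ok_iff0 a w).2 fun ⟨ξ, hξ⟩ => absurd hξ (h ξ)

theorem VS_Iio (a : I) :
    VS N (Set.Iio a) = {r | In (Set.Iio a) r ∧ ∀ b, b < a → ok N b r} := by
  ext r
  refine ⟨fun h => ⟨h.1, fun b _ => h.2 b⟩, fun h => ⟨h.1, fun b => ?_⟩⟩
  by_cases hb : b < a
  · exact h.2 b hb
  · exact ok_none fun ξ hξ => hb (h.1 _ hξ)

theorem ok_iff (a : I) (w : Raw Q I) : ok N a w ↔ okF (VS N (Set.Iio a)) (N a) a w := by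
  rw [ok_iff0, VS_Iio]

theorem ok_congr {N' : I → Stage Q I} (a : I) (h : ∀ b ≤ a, N b = N' b) : ok N a = ok N' a := by
  induction a using WellFoundedLT.induction with
  | ind a ih =>
    funext w
    rw [ok_iff0, ok_iff0, h a le_rfl]
    have : {r | In (Set.Iio a) r ∧ ∀ b, b < a → ok N b r} =
        {r | In (Set.Iio a) r ∧ ∀ b, b < a → ok N' b r} := by
      ext r
      refine and_congr_right fun _ => forall_congr' fun b => forall_congr' fun hb => ?_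
      rw [ih b hb fun c hc => h c (hc.trans hb.le)]
    rw [this]

theorem VS_congr {N' : I → Stage Q I} (a : I) (h : ∀ b < a, N b = N' b) :
    VS N (Set.Iio a) = VS N' (Set.Iio a) := by
  rw [VS_Iio, VS_Iio]
  ext r
  refine and_congr_right fun _ => forall_congr' fun b => forall_congr' fun hb => ?_
  rw [ok_congr b fun c hc => h c (hc.trans_lt hb)]

theorem ok_of_le {a : I} {p q : Raw Q I} (hp : ok N a p)
    (h : res (Set.Iio a) q ≤ res (Set.Iio a) p) (ha : ∀ ξ, (a, ξ) ∈ q.p → (a, ξ) ∈ p.p) :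
    ok N a q := by
  rw [ok_iff] at hp ⊢
  rintro ⟨ξ, hξ⟩
  obtain ⟨h1, h2, h3⟩ := hp ⟨ξ, ha ξ hξ⟩
  exact ⟨h.trans h1, h2, fun ξ η h4 h5 h6 => (h3 ξ η (ha _ h4) (ha _ h5) h6).mono h⟩

theorem VS_mono {S S' : Set I} (h : S ⊆ S') : VS N S ⊆ VS N S' :=
  fun _ hr => ⟨fun x hx => h (hr.1 x hx), hr.2⟩

theorem res_mem {S S' : Set I} (hS : IsLowerSet S) {w : Raw Q I} (hw : w ∈ VS N S') :
    res S w ∈ VS N S := by
  refine ⟨in_res S w, fun b => ?_⟩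
  by_cases hb : b ∈ S
  · refine ok_of_le (hw.2 b) ⟨le_rfl, fun x hx => ?_⟩ fun ξ hξ => (mem_res.1 hξ).1
    obtain ⟨h1, h2⟩ := mem_res.1 hx
    exact mem_res.2 ⟨mem_res.2 ⟨h1, hS (le_of_lt h2) hb⟩, h2⟩
  · exact ok_none fun ξ hξ => hb (mem_res.1 hξ).2

theorem shrink_mem {S : Set I} {w : Raw Q I} (hw : w ∈ VS N S) {h : Q} (hh : h ≤ w.h) :
    (⟨h, w.p⟩ : Raw Q I) ∈ VS N S :=
  ⟨hw.1, fun b => ok_of_le (hw.2 b) ⟨hh, Finset.Subset.refl _⟩ fun _ h => h⟩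

theorem amalg2 {S0 S : Set I} (h0 : S0 ⊆ S) {s w b : Raw Q I} (hs : s ∈ VS N S0)
    (hw : w ∈ VS N S) (hb : b ∈ VS N S) (h1 : s ≤ res S0 w) (h2 : s ≤ res S0 b)
    (hd : ∀ a ξ η, (a, ξ) ∈ w.p → (a, η) ∈ b.p → a ∈ S0 ∨ w = b) :
    ∃ q ∈ VS N S, q ≤ s ∧ q ≤ w ∧ q ≤ b := by
  let q : Raw Q I := ⟨s.h, s.p ∪ (w.p ∪ b.p)⟩
  have q1 : q ≤ s := ⟨le_rfl, Finset.subset_union_left⟩
  have q2 : q ≤ w := ⟨h1.1, Finset.subset_union_left.trans Finset.subset_union_right⟩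
  have q3 : q ≤ b := ⟨h2.1, Finset.subset_union_right.trans Finset.subset_union_right⟩
  have hq : ∀ x ∈ q.p, x ∈ s.p ∨ x ∈ w.p ∨ x ∈ b.p := fun x hx => by
    simpa [q] using hx
  refine ⟨q, ⟨fun x hx => ?_, fun a => ?_⟩, q1, q2, q3⟩
  · rcases hq x hx with h | h | h
    · exact h0 (hs.1 x h)
    · exact hw.1 x h
    · exact hb.1 x h
  · by_cases ha : a ∈ S0
    · refine ok_of_le (hs.2 a) (res_mono _ q1) fun ξ hξ => ?_
      rcases hq _ hξ with h | h | h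
      · exact h
      · exact h1.2 (mem_res.2 ⟨h, ha⟩)
      · exact h2.2 (mem_res.2 ⟨h, ha⟩)
    · by_cases hw' : ∃ ξ, (a, ξ) ∈ w.p
      · obtain ⟨ξ0, hξ0⟩ := hw'
        refine ok_of_le (hw.2 a) (res_mono _ q2) fun ξ hξ => ?_
        rcases hq _ hξ with h | h | h
        · exact absurd (hs.1 _ h) ha
        · exact h
        · rcases hd a ξ0 ξ hξ0 h with h' | h'
          · exact absurd h' ha
          · rw [h']; exact h
      · refine ok_of_le (hb.2 a) (res_mono _ q3) fun ξ hξ => ?_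
        rcases hq _ hξ with h | h | h
        · exact absurd (hs.1 _ h) ha
        · exact absurd ⟨ξ, h⟩ hw'
        · exact h

theorem amalg {S0 S : Set I} (h0 : S0 ⊆ S) {s w : Raw Q I} (hs : s ∈ VS N S0)
    (hw : w ∈ VS N S) (h1 : s ≤ res S0 w) : ∃ q ∈ VS N S, q ≤ s ∧ q ≤ w := by
  obtain ⟨q, hq, h2, h3, -⟩ := amalg2 h0 hs hw hw h1 h1 fun _ _ _ _ _ => Or.inr rfl
  exact ⟨q, hq, h2, h3⟩

end

end H31Z.OCA
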