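import Pool.Agent.H31Z.OCA.Top
import Pool.Agent.H31Z.OCA.Defs

/-!
# A forcing notion which forces the open colouring axiom
-/

set_option autoImplicit false
set_option linter.unusedSectionVars false

namespace H31Z.OCA

open Pool.Agent.Helper292.ForceCH Classical Cardinal

section general

variable {P : Type} [Preorder P] {X : Type}

theorem meets_self {M : Set P} {p : P} (h : p ∈ M) : p ∈ meets M :=
  fun q hq => ⟨q, le_rfl, p, h, hq⟩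

theorem meets_down {M : Set P} (hM : Down M) {p : P} (h : p ∈ meets M) : ∃ q ≤ p, q ∈ M := by
  obtain ⟨r, hr, s, hs, h'⟩ := h p le_rfl
  exact ⟨r, hr, hM _ hs _ h'⟩

theorem fdisj_left {φ ψ : Set P} (hφ : Down φ) {p : P} (h : p ∈ φ) : p ∈ fdisj φ ψ :=
  fun q hq h' => h'.1 q le_rfl (hφ _ h _ hq)

theorem fdisj_right {φ ψ : Set P} (hψ : Down ψ) {p : P} (h : p ∈ ψ) : p ∈ fdisj φ ψ :=
  fun q hq h' => h'.2 q le_rfl (hψ _ h _ hq)

theorem edge_intro {U : X → ℕ → Set P} {K : ℕ → ℕ → Set P} {i j : X} {p : P} {m n : ℕ}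
    (h1 : p ∈ meets (U i m)) (h2 : p ∈ meets (U j n)) (h3 : p ∈ meets (K m n)) :
    p ∈ EdgeName U K i j :=
  mem_fex.2 fun d hd => ⟨d, le_rfl, m, mem_fex.2 fun e he => ⟨e, le_rfl, n,
    down_meets _ _ h1 _ (he.trans hd), down_meets _ _ h2 _ (he.trans hd),
    down_meets _ _ h3 _ (he.trans hd)⟩⟩

theorem edge_elim {U : X → ℕ → Set P} {K : ℕ → ℕ → Set P} {i j : X} {p : P}
    (h : p ∈ EdgeName U K i j) :
    ∃ q ≤ p, ∃ m n, q ∈ meets (U i m) ∧ q ∈ meets (U j n) ∧ q ∈ meets (K m n) := by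
  obtain ⟨d, hd, m, h1⟩ := mem_fex.1 h p le_rfl
  obtain ⟨e, he, n, h2⟩ := mem_fex.1 h1 d le_rfl
  exact ⟨e, he.trans hd, m, n, h2⟩

theorem enum {Z : Type} {B : Set Z} (hB : B.Countable) :
    ∃ e : ℕ → Option Z, {w | ∃ k, e k = some w} = B := by
  obtain ⟨e, he⟩ := ((hB.image some).insert none).exists_eq_range (Set.insert_nonempty _ _)
  refine ⟨e, Set.ext fun w => ⟨fun ⟨k, hk⟩ => ?_, fun hw => ?_⟩⟩
  · have : some w ∈ insert none (some '' B) := he ▸ ⟨k, hk⟩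
    rcases this with h | ⟨m, hm, h⟩
    · cases h
    · cases h
      exact hm
  · have : some w ∈ Set.range e := he ▸ Or.inr ⟨w, hw, rfl⟩
    exact this

end general

theorem exists_sigma (g : GG) : ∃ σ : Set Om → List ℕ → Set W,
    ∀ B : List ℕ → Set W, (∀ l, B l ⊆ VV g ∧ (B l).Countable) → ∃ ρ, σ ρ = B := by
  obtain ⟨emb⟩ := (Cardinal.le_def _ _).1 (sm_names (List ℕ × ℕ) g.α)
  haveI : Nonempty {t : List ℕ × ℕ → Option W // ∀ j w, t j = some w → In (Set.Iio g.α) w} :=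
    ⟨⟨fun _ => none, fun _ _ h => by cases h⟩⟩
  refine ⟨fun ρ l => {w | ∃ k, (Function.invFun emb ρ).1 (l, k) = some w}, fun B hB => ?_⟩
  choose e he using fun l => enum (hB l).2
  obtain ⟨ρ, hρ⟩ := Function.invFun_surjective emb.injective ⟨fun j => e j.1 j.2, by
    intro j w hw
    have : w ∈ B j.1 := he j.1 ▸ ⟨j.2, hw⟩
    exact ((hB j.1).1 this).1⟩
  refine ⟨ρ, funext fun l => ?_⟩
  simp only [hρ]
  exact he l

section

variable {X : Type} (U : X → ℕ → Set Top) (K : ℕ → ℕ → Set Top)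

/-- the name of the independent set coded by `S` -/
def FZ (S : ℕ → Set W) (i : X) : Set Top :=
  {c | (∀ c' ≤ c, ∀ m, c' ∈ meets (U i m) → ∃ c'' ≤ c', Has (S m) c''.w) ∧
    ∀ c' ≤ c, ∀ m n, c' ∈ meets (U i m) → c' ∈ meets (K m n) → ¬ Has (S n) c'.w}

theorem down_FZ (S : ℕ → Set W) (i : X) : Down (FZ U K S i) := fun _ hc _ hd =>
  ⟨fun e he => hc.1 e (he.trans hd), fun e he => hc.2 e (he.trans hd)⟩

variable {U K}

theorem avoid {q : Top}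
    (hB : ∀ r ≤ q, r ∉ fex fun F : ℕ → X → Set Top => fand (fall fun i => fex fun n => meets (F n i))
      (fall fun n => fall fun i => fall fun j =>
        fimp (fand (meets (F n i)) (meets (F n j))) (fnot (EdgeName U K i j))))
    (S : ℕ → ℕ → Set W) (c : Top) (hc : c ≤ q) :
    ∃ c' ≤ c, ∃ i, ∀ c'' ≤ c', ∀ j, c'' ∉ FZ U K (S j) i := by
  by_contra hcon
  push Not at hcon
  refine hB c hc (mem_fex.2 fun d hd => ⟨d, le_rfl, fun j i => FZ U K (S j) i, fun i => ?_,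
    fun n i j => ?_⟩)
  · refine mem_fex.2 fun e he => ?_
    obtain ⟨e', he', j, hj⟩ := hcon e (he.trans hd) i
    exact ⟨e', he', j, meets_self hj⟩
  · refine fimp_of fun e _ h e' he' hE => ?_
    obtain ⟨d0, hd0, m, n', h1, h2, h3⟩ := edge_elim hE
    obtain ⟨d1, hd1, k1⟩ := meets_down (down_FZ U K _ _) (down_meets _ _ h.1 _ (hd0.trans he'))
    obtain ⟨d2, hd2, k2⟩ := meets_down (down_FZ U K _ _)
      (down_meets _ _ h.2 _ (hd1.trans (hd0.trans he')))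
    obtain ⟨d3, hd3, k3⟩ := k2.1 d2 le_rfl n' (down_meets _ _ h2 _ (hd2.trans hd1))
    exact k1.2 d3 (hd3.trans hd2) m n' (down_meets _ _ h1 _ (hd3.trans (hd2.trans hd1)))
      (down_meets _ _ h3 _ (hd3.trans (hd2.trans hd1))) k3

/-- the names of the points in the iteration given by `g` -/
def xN (U : X → ℕ → Set Top) (g : GG) (i : X) (m : ℕ) : Set W :=
  {t | ∃ ht : t ∈ VV g, (⟨g, t, ht⟩ : Top) ∈ meets (U i m)}

/-- the name of the graph in the iteration given by `g` -/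
def kN (K : ℕ → ℕ → Set Top) (g : GG) (m n : ℕ) : Set W :=
  {t | ∃ ht : t ∈ VV g, (⟨g, t, ht⟩ : Top) ∈ meets (K m n) ∧ (⟨g, t, ht⟩ : Top) ∈ meets (K n m)}

theorem phase_one {q : Top} (hsym : ∀ m n, q ∈ fimp (meets (K m n)) (meets (K n m)))
    (hA : ∀ (S : ℕ → ℕ → Set W) (c : Top), c ≤ q →
      ∃ c' ≤ c, ∃ i, ∀ c'' ≤ c', ∀ j, c'' ∉ FZ U K (S j) i) :
    ∃ c ≤ q, ∀ S : ℕ → ℕ → Set W, (∀ j n, S j n ⊆ VV c.g ∧ (S j n).Countable) →
      ∀ r ∈ VV c.g, r ≤ c.w → ∃ s ∈ VV c.g, s ≤ r ∧ ∃ i, ∀ j,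
        Av (VV c.g) (kN K c.g) (xN U c.g i) (S j) s := by
  obtain ⟨c1, hc1, -, BK, hBK⟩ := exists_nice (fun j : ℕ × ℕ => meets (K j.1 j.2))
    (fun _ => down_meets _) q
  obtain ⟨g, hg, H⟩ := reflect (Tk := ℕ × ℕ × ℕ → Option W)
    (fun t => {a | ∃ j w, t j = some w ∧ ∃ x ∈ w.p, x.1 = a})
    (fun t => by
      refine (Set.countable_iUnion fun j => (((t j).elim ∅ fun w => w.p).finite_toSet.image
        Prod.fst).countable).mono ?_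
      rintro a ⟨j, w, h, x, hx, rfl⟩
      exact Set.mem_iUnion.2 ⟨j, x, by rw [h]; exact hx, rfl⟩)
    (fun a => (sm_names (ℕ × ℕ × ℕ) a).of_inj
      (fun t => ⟨t.1, fun j w h x hx => t.2 ⟨j, w, h, x, hx, rfl⟩⟩)
      (fun t t' h => Subtype.ext (Subtype.mk.inj h)))
    (fun t => {c | ∃ i, ∃ B : ℕ → Set W,
      (∀ c' ≤ c, ∀ j, c' ∉ FZ U K (fun n => {w | ∃ k, t (j, n, k) = some w}) i) ∧
      ∀ m, Nice c (meets (U i m)) (B m)})
    (fun t c ⟨i, B, h1, h2⟩ d hd => ⟨i, B, fun e he => h1 e (he.trans hd), fun m => (h2 m).mono hd⟩)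
    c1.g
  have hc0 : (⟨g, c1.w, VV_mono hg c1.hw⟩ : Top) ≤ c1 := ⟨hg, le_rfl⟩
  refine ⟨⟨g, c1.w, VV_mono hg c1.hw⟩, hc0.trans hc1, fun S hS r hr hrw => ?_⟩
  simp only at hS hr hrw ⊢
  choose e he using fun j n => enum (hS j n).2
  have hr1 : (⟨g, r, hr⟩ : Top) ≤ c1 := ⟨hg, hrw⟩
  obtain ⟨c', hc', i0, hi0⟩ := hA S ⟨g, r, hr⟩ (hr1.trans hc1)
  obtain ⟨c'', hc'', -, B0, hB0⟩ := exists_nice (fun m => meets (U i0 m)) (fun _ => down_meets _) c'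
  obtain ⟨w', hw', hw'r, i, B, h1, h2⟩ := H (fun j => e j.1 j.2.1 j.2.2) (by
      rintro _ ⟨j, w, h, x, hx, rfl⟩
      have : w ∈ S j.1 j.2.1 := he j.1 j.2.1 ▸ ⟨j.2.2, h⟩
      exact ((hS _ _).1 this).1 x hx) r hr
    ⟨c'', ⟨i0, B0, fun d hd j => by simp only [he]; exact hi0 d (hd.trans hc'') j,
      fun m => (hB0 m).2⟩, (hc''.trans hc').1, (hc''.trans hc').2⟩
  simp only [he] at h1
  refine ⟨w', hw', hw'r, i, fun j r1 hr1' hr1w hpre => ?_⟩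
  have hx : ∀ (d : Top) (m : ℕ), Has (B m) d.w → Has (xN U g i m) (res (Set.Iio g.α) d.w) := by
    rintro d m ⟨b, hb, hdb⟩
    have hbV : b ∈ VV g := (h2 m).1 hb
    exact ⟨b, ⟨hbV, (h2 m).2.1 b hb _ le_rfl le_rfl⟩, res_le hdb hbV.1⟩
  have hle : (⟨g, r1, hr1'⟩ : Top) ≤ ⟨g, w', hw'⟩ := ⟨le_rfl, hr1w⟩
  have hle1 : (⟨g, r1, hr1'⟩ : Top) ≤ c1 := ⟨hg, hr1w.trans (hw'r.trans hrw)⟩
  by_contra hcon
  refine h1 ⟨g, r1, hr1'⟩ hle j ⟨fun c2 hc2 m hm => ?_, fun c2 hc2 m n hm hK hn => ?_⟩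
  · obtain ⟨c3, hc3, h3⟩ := (h2 m).2.2 c2 (hc2.trans hle) hm
    have hg3 : c3.g ≤ g := (hc3.trans hc2).1
    obtain ⟨s, hs, h4, h5⟩ := hpre _ (VV_res hg3 c3.hw) (res_le (hc3.trans hc2).2 hr1'.1) m
      (hx c3 m h3)
    obtain ⟨c4, hc4, h6⟩ := top_amalg c3 hg3 hs h4
    exact ⟨c4, hc4.trans hc3, h5.mono h6⟩
  · obtain ⟨c3, hc3, h3⟩ := (h2 m).2.2 c2 (hc2.trans hle) hm
    obtain ⟨c4, hc4, h4⟩ := mem_fimp.1 (hsym m n) c3 (hc3.trans (hc2.trans (hle1.trans hc1)))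
      (down_meets _ _ hK _ hc3)
    obtain ⟨c5, hc5, b, hb, h5⟩ := (hBK (m, n)).2.2.2 c4 (hc4.trans (hc3.trans (hc2.trans hle1)))
      (down_meets _ _ hK _ (hc4.trans hc3))
    obtain ⟨c6, hc6, b', hb', h6⟩ := (hBK (n, m)).2.2.2 c5
      (hc5.trans (hc4.trans (hc3.trans (hc2.trans hle1)))) (down_meets _ _ h4 _ hc5)
    have h63 : c6 ≤ c3 := hc6.trans (hc5.trans hc4)
    have hg6 : c6.g ≤ g := (h63.trans (hc3.trans hc2)).1
    have hs := VV_res hg6 c6.hw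
    refine hcon ⟨_, hs, res_le (h63.trans (hc3.trans hc2)).2 hr1'.1, m, n,
      hx c6 m (h3.mono h63.2), has_self ⟨hs, ?_, ?_⟩,
      (hn.mono (h63.trans hc3).2).res fun t ht => ((hS j n).1 ht).1⟩
    · exact (hBK (m, n)).2.2.1 b hb _ hg
        (res_le (hc6.2.trans h5) (VV_mono hg ((hBK (m, n)).2.1 hb)).1)
    · exact (hBK (n, m)).2.2.1 b' hb' _ hg (res_le h6 (VV_mono hg ((hBK (n, m)).2.1 hb')).1)

/-- after a good stage the generic set of indices can be forced to be unbounded -/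
theorem unbounded (c : Top) (st : Stage Cond II) (hb : st.base = c.w) (hG : Good (VV c.g) st) :
    ∃ c' ≤ c, (∀ d ≤ c', okF (VV c.g) st c.g.α d.w) ∧
      ∀ d ≤ c', ∀ δ, ∃ d' ≤ d, ∃ ξ, δ ≤ ξ ∧ (c.g.α, ξ) ∈ d'.w.p := by
  obtain ⟨α', hα'⟩ := exists_bound' (T := Unit) (mk_le_aleph0.trans aleph0_le_lam) fun _ => c.g.α
  have hα := hα' ()
  let g' : GG := ⟨α', Function.update c.g.N c.g.α st⟩
  have hg' : g' ≤ c.g := ⟨hα.le, fun a ha => Function.update_of_ne ha.ne _ _⟩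
  have hiff : ∀ g'' ≤ g', ∀ w, ok g''.N c.g.α w ↔ okF (VV c.g) st c.g.α w := by
    intro g'' h w
    rw [ok_iff, VV_eq (h.trans hg'), h.2 _ hα]
    simp [g']
  obtain ⟨c3, hc3, hp, B, hB⟩ := exists_nice (J := Unit)
    (fun _ => {d : Top | ∃ δ, ∀ d' ≤ d, ∀ ξ, (c.g.α, ξ) ∈ d'.w.p → ξ < δ})
    (fun _ d ⟨δ, h⟩ e he => ⟨δ, fun d' hd' => h d' (hd'.trans he)⟩) ⟨g', c.w, VV_mono hg' c.hw⟩
  obtain ⟨b1, b2, b3, b4⟩ := hB ()
  have : ∀ b : W, ∃ δ, b ∈ B () → ∀ d' : Top, d'.g ≤ c3.g → d'.w ≤ b → ∀ ξ,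
      (c.g.α, ξ) ∈ d'.w.p → ξ < δ := by
    intro b
    by_cases hb : b ∈ B ()
    · obtain ⟨δ, h⟩ := b3 b hb ⟨c3.g, b, b2 hb⟩ le_rfl le_rfl
      exact ⟨δ, fun _ d' h1 h2 => h d' ⟨h1, h2⟩⟩
    · exact ⟨Classical.arbitrary Om, fun h => absurd h hb⟩
  choose k hk using this
  obtain ⟨δ0, hδ0⟩ := bound_c b1 k
  let w4 : W := ⟨c3.w.h, insert (c.g.α, δ0) c3.w.p⟩
  have h43 : w4 ≤ c3.w := ⟨le_rfl, Finset.subset_insert _ _⟩
  have hno : ∀ ξ, (c.g.α, ξ) ∉ c3.w.p := fun ξ h => by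
    rw [hp] at h
    exact lt_irrefl c.g.α (c.hw.1 _ h)
  have hw4 : w4 ∈ VV c3.g := by
    refine ⟨fun x hx => ?_, fun e => ?_⟩
    · rcases Finset.mem_insert.1 hx with rfl | hx
      · exact hα.trans_le hc3.1.1
      · exact c3.hw.1 x hx
    · by_cases he : e = c.g.α
      · subst he
        rw [hiff _ hc3.1]
        have h1 : ∀ ξ, (c.g.α, ξ) ∈ w4.p → ξ = δ0 := fun ξ h => by
          rcases Finset.mem_insert.1 h with h | h
          · exact congrArg Prod.snd h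
          · exact absurd h (hno ξ)
        refine fun _ => ⟨?_, hG, fun ξ η h2 h3 hne => absurd ((h1 ξ h2).trans (h1 η h3).symm) hne⟩
        rw [hb]
        exact res_le (h43.trans hc3.2) c.hw.1
      · refine ok_of_le (c3.hw.2 e) (res_mono _ h43) fun ξ h => ?_
        rcases Finset.mem_insert.1 h with h | h
        · exact absurd (congrArg Prod.fst h) he
        · exact h
  have h4 : (⟨c3.g, w4, hw4⟩ : Top) ≤ c3 := ⟨le_rfl, h43⟩
  refine ⟨⟨c3.g, w4, hw4⟩, h4.trans ⟨hc3.1.trans hg', hc3.2⟩,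
    fun d hd => (hiff _ (hd.1.trans hc3.1) _).1 (d.hw.2 _), fun d hd δ => ?_⟩
  by_contra hcon
  push Not at hcon
  obtain ⟨d', hd', b, hb', h5⟩ := b4 d (hd.trans h4) ⟨δ, fun d' hd' ξ hξ => by
    by_contra h
    exact hcon d' hd' ξ (le_of_not_gt h) hξ⟩
  exact lt_asymm (hδ0 b hb') (hk b hb' d' (hd'.trans hd).1 h5 δ0
    ((hd'.trans hd).2.2 (Finset.mem_insert_self _ _)))

end

theorem ogaHolds (c : Top) : c ∈ OGAHolds Top := by
  intro X U K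
  refine mem_fimp.2 fun q _ hq => ?_
  by_cases hB : ∃ r ≤ q, r ∈ fex fun F : ℕ → X → Set Top =>
      fand (fall fun i => fex fun n => meets (F n i))
      (fall fun n => fall fun i => fall fun j =>
        fimp (fand (meets (F n i)) (meets (F n j))) (fnot (EdgeName U K i j)))
  · obtain ⟨r, hr, h⟩ := hB
    exact ⟨r, hr, fdisj_right (down_fex _) h⟩
  push Not at hB
  obtain ⟨c1, hc1, H⟩ := phase_one hq.1 (avoid hB)
  obtain ⟨σ, hσ⟩ := exists_sigma c1.g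
  obtain ⟨y, lab, hG, l1, l2, l3, l4⟩ := exists_stage (VV c1.g) (sp_Iio sigmaClosed _)
    (fun w hw h hh => shrink_mem hw hh) σ hσ (xN U c1.g) (kN K c1.g)
    (fun m n => by ext t; simp only [kN, Set.mem_ofPred_eq, and_comm]) c1.w H
  obtain ⟨c4, hc4, hok, hU⟩ := unbounded c1 ⟨c1.w, y, kN K c1.g⟩ rfl hG
  have hres : ∀ (d : Top) ξ i, Has (lab ξ i) d.w → Has (lab ξ i) (res (Set.Iio c1.g.α) d.w) :=
    fun d ξ i h => h.res fun t ht => (l1 ξ i ht).1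
  have hE : ∀ d ≤ c4, ∀ ξ η i j, ξ ≠ η → (c1.g.α, ξ) ∈ d.w.p → (c1.g.α, η) ∈ d.w.p →
      Has (lab ξ i) d.w → Has (lab η j) d.w → ∃ d' ≤ d, d' ∈ EdgeName U K i j := by
    intro d hd ξ η i j hne h1 h2 h3 h4
    have hg : d.g ≤ c1.g := (hd.trans hc4).1
    obtain ⟨s, hs, hsd, m, n, e1, e2, t, ⟨ht, e3, -⟩, e4⟩ := (hok d hd ⟨ξ, h1⟩).2.2 ξ η h1 h2 hne _
      (VV_res hg d.hw) le_rfl
    obtain ⟨i', k1, t1, ⟨ht1, k2⟩, k3⟩ := l4 ξ m s e1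
    obtain ⟨j', k4, t2, ⟨ht2, k5⟩, k6⟩ := l4 η n s e2
    obtain rfl := l3 ξ i i' s hs ((hres d ξ i h3).mono hsd) k1
    obtain rfl := l3 η j j' s hs ((hres d η j h4).mono hsd) k4
    obtain ⟨d', hd', h5⟩ := top_amalg d hg hs hsd
    exact ⟨d', hd', edge_intro (down_meets _ _ k2 _ ⟨hd'.1.trans hg, h5.trans k3⟩)
      (down_meets _ _ k5 _ ⟨hd'.1.trans hg, h5.trans k6⟩)
      (down_meets _ _ e3 _ ⟨hd'.1.trans hg, h5.trans e4⟩)⟩
  let Y : X → Set Top := fun i => {d | ∃ ξ, (c1.g.α, ξ) ∈ d.w.p ∧ Has (lab ξ i) d.w}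
  have hY : ∀ i, Down (Y i) := fun i d ⟨ξ, h1, h2⟩ e he => ⟨ξ, he.2.2 h1, h2.mono he.2⟩
  refine ⟨c4, hc4.trans hc1, fdisj_left (down_fex _) (mem_fex.2 fun r hr =>
    ⟨r, le_rfl, Y, fun e he hC => ?_, fun i j => mem_fimp.2 fun e he h => ?_⟩)⟩
  · obtain ⟨e1, he1, F, hF1, hF2⟩ := mem_fex.1 hC e le_rfl
    have he4 : e1 ≤ c4 := he1.trans (he.trans hr)
    obtain ⟨e2, he2, δ, hδ⟩ := bounded (fun n ξ => {d | d ≤ e1 ∧ ∃ i, (c1.g.α, ξ) ∈ d.w.p ∧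
        Has (lab ξ i) d.w ∧ d ∈ meets (F i n)})
      (fun n ξ d ⟨h0, i, h1, h2, h3⟩ d' hd' =>
        ⟨hd'.trans h0, i, hd'.2.2 h1, h2.mono hd'.2, down_meets _ _ h3 _ hd'⟩)
      (by
        rintro n ξ η d ⟨h0, i, h1, h2, h3⟩ ⟨-, j, h4, h5, h6⟩
        obtain ⟨_, _, hij⟩ := mem_fimp.1 (hF2 i j n) d h0 ⟨h3, h6⟩
        obtain rfl : i = j := hij
        by_contra hne
        obtain ⟨d', hd', h7⟩ := hE d (h0.trans he4) ξ η i i hne h1 h4 h2 h5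
        exact hq.2 i d' (hd'.trans (h0.trans (he4.trans (hc4.trans hc1)))) h7) e1
    obtain ⟨d1, hd1, ξ, hξ, h1⟩ := hU e2 (he2.trans he4) δ
    have hd14 : d1 ≤ c1 := hd1.trans (he2.trans (he4.trans hc4))
    obtain ⟨s, hs, hsd, i, hi⟩ := l2 ξ _ (VV_res hd14.1 d1.hw) (res_le hd14.2 c1.hw.1)
    obtain ⟨d2, hd2, h2⟩ := top_amalg d1 hd14.1 hs hsd
    obtain ⟨d3, hd3, h3⟩ := mem_fimp.1 (hF1 i) d2 (hd2.trans (hd1.trans he2))
      (meets_self (M := Y i) ⟨ξ, hd2.2.2 h1, hi.mono h2⟩)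
    obtain ⟨d4, hd4, n, h4⟩ := mem_fex.1 h3 d3 le_rfl
    have h42 : d4 ≤ d2 := hd4.trans hd3
    exact absurd (hδ d4 (h42.trans (hd2.trans hd1)) n ξ ⟨h42.trans (hd2.trans (hd1.trans he2)), i,
      (h42.trans hd2).2.2 h1, hi.mono (h42.2.trans h2), h4⟩) (not_lt_of_ge hξ)
  · obtain ⟨d1, hd1, k1⟩ := meets_down (hY i) h.1
    obtain ⟨d2, hd2, η, k2, k3⟩ := meets_down (hY j) (down_meets _ _ h.2.1 _ hd1)
    obtain ⟨ξ, k4, k5⟩ := hY i _ k1 _ hd2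
    have hd4 : d2 ≤ c4 := hd2.trans (hd1.trans (he.trans hr))
    have hne : ξ ≠ η := by
      rintro rfl
      exact h.2.2 (l3 ξ i j _ (VV_res (hd4.trans hc4).1 d2.hw) (hres d2 ξ i k5) (hres d2 ξ j k3))
    obtain ⟨d', hd', h7⟩ := hE d2 hd4 ξ η i j hne k4 k2 k5 k3
    exact ⟨d', hd'.trans (hd2.trans hd1), h7⟩

/-- There is a forcing notion which preserves `ω₁` and forces the open colouring axiom. -/
theorem exists_forcing : ∃ (P : Type) (_ : Preorder P), Nonempty P ∧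
    ∀ p : P, p ∈ OmegaOnePreserved P ∧ p ∈ OGAHolds P :=
  ⟨Top, inferInstance, inferInstance, fun p => ⟨omegaOne p, ogaHolds p⟩⟩

end H31Z.OCA
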