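import Pool.Agent.H31Z.OCA.Ccc

/-!
# Construction of a good stage
-/

set_option autoImplicit false
set_option linter.unusedSectionVars false

namespace H31Z.OCA

open Pool.Agent.Helper292.ForceCH Classical

/-- a maximal family of pairwise unrelated elements -/
theorem exists_maximal {Y : Type} (C : Y → Y → Prop) (hs : ∀ a b, C a b → C b a) (T : Set Y)
    (hr : ∀ a ∈ T, C a a) :
    ∃ M ⊆ T, (∀ a ∈ M, ∀ b ∈ M, a ≠ b → ¬ C a b) ∧ ∀ a ∈ T, ∃ m ∈ M, C a m := by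
  obtain ⟨M, hM⟩ := zorn_subset {M : Set Y | M ⊆ T ∧ ∀ a ∈ M, ∀ b ∈ M, a ≠ b → ¬ C a b} (by
    intro c hc hch
    refine ⟨⋃₀ c, ⟨fun a ⟨s, hs, ha⟩ => (hc hs).1 ha, ?_⟩, fun s hs => Set.subset_sUnion_of_mem hs⟩
    rintro a ⟨s, hs, ha⟩ b ⟨t, ht, hb⟩
    rcases hch.total hs ht with h | h
    · exact (hc ht).2 a (h ha) b hb
    · exact (hc hs).2 a ha b (h hb))
  refine ⟨M, hM.prop.1, hM.prop.2, fun a ha => ?_⟩
  by_contra hcon
  push Not at hcon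
  have h1 : insert a M ∈ {M : Set Y | M ⊆ T ∧ ∀ a ∈ M, ∀ b ∈ M, a ≠ b → ¬ C a b} := by
    refine ⟨Set.insert_subset ha hM.prop.1, ?_⟩
    rintro x (rfl | hx) y (rfl | hy) hne
    · exact absurd rfl hne
    · exact hcon y hy
    · exact fun h => hcon x hx (hs _ _ h)
    · exact hM.prop.2 x hx y hy hne
  have h2 : a ∈ M := hM.le_of_ge h1 (Set.subset_insert a M) (Set.mem_insert a M)
  exact hcon a h2 (hr a ha)

theorem countable_lists {α : Type} {M : Set α} (hM : M.Countable) :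
    {l : List α | ∀ x ∈ l, x ∈ M}.Countable := by
  haveI := hM.to_subtype
  refine (Set.countable_range fun l : List M => l.map Subtype.val).mono fun l hl => ?_
  induction l with
  | nil => exact ⟨[], rfl⟩
  | cons a l ih =>
    obtain ⟨l', hl'⟩ := ih fun x hx => hl x (List.mem_cons_of_mem _ hx)
    exact ⟨⟨a, hl a List.mem_cons_self⟩ :: l', by simp only [List.map_cons]; exact congrArg _ hl'⟩

theorem forall₂_imp_mem {α β : Type} {R S : α → β → Prop} {l : List α} {l' : List β}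
    (h : List.Forall₂ R l l') : (∀ a ∈ l, ∀ b, R a b → S a b) → List.Forall₂ S l l' := by
  induction h with
  | nil => exact fun _ => List.Forall₂.nil
  | cons h1 _ ih =>
    exact fun H => List.Forall₂.cons (H _ List.mem_cons_self _ h1)
      (ih fun a ha => H a (List.mem_cons_of_mem _ ha))

section

variable {Q I : Type} [Preorder Q]

theorem Cl.congr {V : Set (Raw Q I)} {y y' : Om → ℕ → Set (Raw Q I)} {T : List ℕ → Set (Raw Q I)}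
    {pre : List ℕ} {ηs : List Om} {r : Raw Q I} (h : Cl V y T pre ηs r)
    (hy : ∀ η ∈ ηs, y' η = y η) : Cl V y' T pre ηs r := fun s hs hsr ns hns =>
  h s hs hsr ns (forall₂_imp_mem hns fun η hη n H => by rw [← hy η hη]; exact H)

/-- the point named by `x` avoids the independent set coded by `S` -/
def Av (V : Set (Raw Q I)) (K : ℕ → ℕ → Set (Raw Q I)) (x S : ℕ → Set (Raw Q I))
    (s : Raw Q I) : Prop :=
  ∀ r ∈ V, r ≤ s → (∀ s' ∈ V, s' ≤ r → ∀ m, Has (x m) s' → ∃ s'' ∈ V, s'' ≤ s' ∧ Has (S m) s'') →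
    ∃ s' ∈ V, s' ≤ r ∧ ∃ m n, Has (x m) s' ∧ Has (K m n) s' ∧ Has (S n) s'

theorem sp_many (hQ : SigmaClosed Q) {V : Set (Raw Q I)} (hV : SP V) {J : Type} [Countable J]
    (Wt : J → Set (Raw Q I)) (h : Q) : ∃ h' ≤ h, ∃ B : J → Set (Raw Q I), ∀ j, B j ⊆ V ∧
      (B j).Countable ∧ (∀ b ∈ B j, Has (Wt j) b) ∧
      ∀ s ∈ V, s.h ≤ h' → Has (Wt j) s → ∃ s' ∈ V, s' ≤ s ∧ Has (B j) s' := by
  obtain ⟨h', hh', H⟩ := meet_c hQ (Set.univ : Set J) Set.countable_univ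
    (fun j => {h' | ∃ B : Set (Raw Q I), B ⊆ V ∧ B.Countable ∧ (∀ b ∈ B, Has (Wt j) b) ∧
      ∀ s ∈ V, s.h ≤ h' → Has (Wt j) s → ∃ s' ∈ V, s' ≤ s ∧ Has B s'})
    (fun j p ⟨B, h1, h2, h3, h4⟩ q hq => ⟨B, h1, h2, h3, fun s hs h5 => h4 s hs (h5.trans hq)⟩)
    (fun j h0 => by
      obtain ⟨h', hh', B, h1, h2, h3⟩ := hV (Raw Q I) id {s | s ∈ V ∧ Has (Wt j) s}
        (fun s hs => hs.1) h0
      refine ⟨h', hh', B, fun b hb => (h1 hb).1, h2, fun b hb => (h1 hb).2, fun s hs h4 h5 => ?_⟩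
      obtain ⟨b, hb, s', hs', h6, h7⟩ := h3 s ⟨hs, h5⟩ h4
      exact ⟨s', hs', h6, b, hb, h7⟩) h
  choose B hB using fun j => H j (Set.mem_univ j)
  exact ⟨h', hh', B, hB⟩

theorem Has.trans {B M : Set (Raw Q I)} (hB : ∀ b ∈ B, Has M b) {s : Raw Q I} (h : Has B s) :
    Has M s := by
  obtain ⟨b, hb, h⟩ := h
  exact (hB b hb).mono h

end

theorem exists_stage {I : Type} (V : Set (Raw Cond I)) (hV : SP V)
    (hsh : ∀ w ∈ V, ∀ h ≤ w.h, (⟨h, w.p⟩ : Raw Cond I) ∈ V)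
    (σ : Set Om → List ℕ → Set (Raw Cond I))
    (hσ : ∀ B : List ℕ → Set (Raw Cond I), (∀ l, B l ⊆ V ∧ (B l).Countable) → ∃ ρ, σ ρ = B)
    {X : Type} (x : X → ℕ → Set (Raw Cond I)) (K : ℕ → ℕ → Set (Raw Cond I))
    (hK : ∀ m n, K m n = K n m) (w0 : Raw Cond I)
    (H : ∀ S : ℕ → ℕ → Set (Raw Cond I), (∀ j n, S j n ⊆ V ∧ (S j n).Countable) →
      ∀ r ∈ V, r ≤ w0 → ∃ s ∈ V, s ≤ r ∧ ∃ i, ∀ j, Av V K (x i) (S j) s) :
    ∃ (y : Om → ℕ → Set (Raw Cond I)) (lab : Om → X → Set (Raw Cond I)), Good V ⟨w0, y, K⟩ ∧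
      (∀ ξ i, lab ξ i ⊆ V) ∧ (∀ ξ, ∀ r ∈ V, r ≤ w0 → ∃ s ∈ V, s ≤ r ∧ ∃ i, Has (lab ξ i) s) ∧
      (∀ ξ i i', ∀ s ∈ V, Has (lab ξ i) s → Has (lab ξ i') s → i = i') ∧
      ∀ ξ m s, Has (y ξ m) s → ∃ i, Has (lab ξ i) s ∧ Has (x i m) s := by
  have H2 : ∀ (J : Type) [Countable J] (S : J → ℕ → Set (Raw Cond I)),
      ∀ r ∈ V, r ≤ w0 → ∃ s ∈ V, s ≤ r ∧ ∃ i, ∀ j, Av V K (x i) (S j) s := by
    intro J _ S r hr hrw
    obtain ⟨h', hh', B, hB⟩ := sp_many sigmaClosed hV (fun j : J × ℕ => S j.1 j.2) r.h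
    obtain ⟨g, hg⟩ := exists_surjective_nat (Option J)
    have hr' : (⟨h', r.p⟩ : Raw Cond I) ≤ r := ⟨hh', Finset.Subset.refl _⟩
    obtain ⟨s, hs, hsr, i, hi⟩ := H (fun k n => (g k).elim ∅ fun j => B (j, n)) (by
      intro k n
      rcases g k with _ | j
      · exact ⟨Set.empty_subset _, Set.countable_empty⟩
      · exact ⟨(hB _).1, (hB _).2.1⟩) ⟨h', r.p⟩ (hsh r hr h' hh') (hr'.trans hrw)
    refine ⟨s, hs, hsr.trans hr', i, fun j r1 hr1 hr1s hpre => ?_⟩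
    obtain ⟨k, hk⟩ := hg (some j)
    have h1 := hi k
    rw [hk] at h1
    obtain ⟨s', hs', h2, m, n, h3, h4, h5⟩ := h1 r1 hr1 hr1s (by
      intro s' hs' h2 m h3
      obtain ⟨s'', hs'', h4, h5⟩ := hpre s' hs' h2 m h3
      obtain ⟨s3, hs3, h6, h7⟩ := (hB (j, m)).2.2.2 s'' hs''
        (h4.1.trans (h2.1.trans (hr1s.1.trans hsr.1))) h5
      exact ⟨s3, hs3, h6.trans h4, h7⟩)
    exact ⟨s', hs', h2, m, n, h3, h4, h5.trans (hB (j, n)).2.2.1⟩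
  have step : ∀ (ξ : Om) (y : Om → ℕ → Set (Raw Cond I)), ∃ L : X → Set (Raw Cond I),
      (∀ i, L i ⊆ V) ∧ (∀ r ∈ V, r ≤ w0 → ∃ s ∈ V, s ≤ r ∧ ∃ i, Has (L i) s) ∧
      (∀ i i', ∀ s ∈ V, Has (L i) s → Has (L i') s → i = i') ∧
      ∀ i, ∀ s ∈ L i, ξ ≤ s.h.1 ∧ ∀ ζ < ξ, ∀ pre ηs, (∀ η ∈ ηs, η < ξ) →
        Av V K (x i) (fun n => {t | Cl V y (σ (s.h.2 ζ)) (pre ++ [n]) ηs t}) s := by
    intro ξ y
    obtain ⟨M, M1, M2, M3⟩ := exists_maximal (Y := Raw Cond I × X)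
      (fun a b => ∃ t ∈ V, t ≤ a.1 ∧ t ≤ b.1) (fun _ _ ⟨t, h1, h2, h3⟩ => ⟨t, h1, h3, h2⟩)
      {a | a.1 ∈ V ∧ ξ ≤ a.1.h.1 ∧ ∀ ζ < ξ, ∀ pre ηs, (∀ η ∈ ηs, η < ξ) →
        Av V K (x a.2) (fun n => {t | Cl V y (σ (a.1.h.2 ζ)) (pre ++ [n]) ηs t}) a.1}
      (fun a ha => ⟨a.1, ha.1, le_rfl, le_rfl⟩)
    refine ⟨fun i => {s | (s, i) ∈ M}, fun i s hs => (M1 hs).1, fun r hr hrw => ?_, ?_,
      fun i s hs => (M1 hs).2⟩
    · obtain ⟨h1, hh1, hξ⟩ := exists_longer r.h ξ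
      have hr' : (⟨h1, r.p⟩ : Raw Cond I) ≤ r := ⟨hh1, Finset.Subset.refl _⟩
      have hIio : (Set.Iio ξ).Countable := Set.countable_coe_iff.1 (countable_Iio _)
      haveI : Countable {j : Om × List ℕ × List Om // j.1 < ξ ∧ ∀ η ∈ j.2.2, η < ξ} := by
        refine Set.Countable.to_subtype
          (s := {j : Om × List ℕ × List Om | j.1 < ξ ∧ ∀ η ∈ j.2.2, η < ξ}) ?_
        refine (hIio.prod ((Set.countable_univ (α := List ℕ)).prod (countable_lists hIio))).mono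
          fun j hj => ?_
        exact ⟨hj.1, Set.mem_univ _, hj.2⟩
      obtain ⟨s, hs, hsr, i, hi⟩ := H2 {j : Om × List ℕ × List Om // j.1 < ξ ∧ ∀ η ∈ j.2.2, η < ξ}
        (fun j n => {t | Cl V y (σ (h1.2 j.1.1)) (j.1.2.1 ++ [n]) j.1.2.2 t}) ⟨h1, r.p⟩
        (hsh r hr h1 hh1) (hr'.trans hrw)
      obtain ⟨m, hm, t, ht, h2, h3⟩ := M3 (s, i) ⟨hs, hξ.le.trans hsr.1.1, fun ζ hζ pre ηs hη => by
        have e : s.h.2 ζ = h1.2 ζ := hsr.1.2 ζ (hζ.trans hξ)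
        simp only [e]
        exact hi ⟨(ζ, pre, ηs), hζ, hη⟩⟩
      exact ⟨t, ht, h2.trans (hsr.trans hr'), m.2, m.1, hm, h3⟩
    · rintro i i' s hs ⟨t, ht, h1⟩ ⟨t', ht', h2⟩
      by_contra hne
      exact M2 _ ht _ ht' (fun h => hne (congrArg Prod.snd h)) ⟨s, hs, h1, h2⟩
  choose Lf L1 L2 L3 L4 using step
  let yOf : (X → Set (Raw Cond I)) → ℕ → Set (Raw Cond I) := fun L m =>
    {s | ∃ i, Has (L i) s ∧ Has (x i m) s}
  let yy : Om → ℕ → Set (Raw Cond I) := (wellFounded_lt (α := Om)).fix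
    (C := fun _ => ℕ → Set (Raw Cond I))
    fun ξ rec => yOf (Lf ξ fun η => if h : η < ξ then rec η h else fun _ => ∅)
  let tr : Om → Om → ℕ → Set (Raw Cond I) := fun ξ η => if _h : η < ξ then yy η else fun _ => ∅
  have hyy : ∀ ξ, yy ξ = yOf (Lf ξ (tr ξ)) := fun ξ => by
    simp only [yy]
    rw [WellFounded.fix_eq]
  have htr : ∀ ξ η, η < ξ → tr ξ η = yy η := fun ξ η h => dif_pos h
  refine ⟨yy, fun ξ => Lf ξ (tr ξ), ⟨hK, fun T h => ?_⟩, fun ξ => L1 ξ _, fun ξ => L2 ξ _,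
    fun ξ => L3 ξ _, ?_⟩
  · obtain ⟨h1, hh1, B, hB⟩ := sp_many sigmaClosed hV T h
    obtain ⟨ρ, hρ⟩ := hσ B fun l => ⟨(hB l).1, (hB l).2.1⟩
    obtain ⟨h2, hh2, k1, k2⟩ := exists_succ h1 ρ
    refine ⟨h2, hh2.trans hh1, h2.1, fun ξ hξ ηs hη pre r hr hrw hrh hC => ?_⟩
    obtain ⟨r', hr', hr'r, i, t, ht, hr't⟩ := L2 ξ (tr ξ) r hr hrw
    obtain ⟨l1, l2⟩ := L4 ξ (tr ξ) i t ht
    have hζ : h1.1 < ξ := k1.trans_le hξ
    have e : t.h.2 h1.1 = ρ := by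
      rw [← hr't.1.2 _ (hζ.trans_le l1), (hr'r.1.trans hrh).2 _ k1, k2]
    have l3 := l2 h1.1 hζ pre ηs hη
    rw [e, hρ] at l3
    have hy : ∀ s ≤ r', ∀ m, Has (x i m) s → Has (yy ξ m) s := by
      intro s hs m hm
      rw [hyy]
      exact has_self ⟨i, ⟨t, ht, hs.trans hr't⟩, hm⟩
    obtain ⟨s, hs, hsr, m, n, e1, e2, t', ht', e3⟩ := l3 r' hr' hr't (by
      intro s' hs' h3 m hm
      refine ⟨s', hs', le_rfl, has_self ?_⟩
      refine Cl.congr (y := yy) ?_ fun η h => htr ξ η (hη η h)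
      intro s'' hs'' h4 ns hns
      obtain ⟨s3, hs3, h5, h6⟩ := hC s'' hs'' (h4.trans (h3.trans hr'r)) (m :: ns)
        (List.Forall₂.cons (hy s'' (h4.trans h3) m (hm.mono h4)) hns)
      obtain ⟨s4, hs4, h7, h8⟩ := (hB (pre ++ m :: ns)).2.2.2 s3 hs3
        (h5.1.trans (h4.1.trans (h3.1.trans (hr'r.1.trans (hrh.trans hh2))))) h6
      exact ⟨s4, hs4, h7.trans h5, by simpa using h8⟩)
    refine ⟨s, hs, hsr.trans hr'r, m, n, hy s hsr m e1, e2, ?_⟩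
    have e4 : Cl V yy B (pre ++ [n]) ηs s :=
      Cl.congr (Cl.mono ht' e3) fun η h => (htr ξ η (hη η h)).symm
    intro s'' hs'' h4 ns hns
    obtain ⟨s3, hs3, h5, h6⟩ := e4 s'' hs'' h4 ns hns
    exact ⟨s3, hs3, h5, h6.trans (hB _).2.2.1⟩
  · rintro ξ m s ⟨t, ht, hs⟩
    rw [hyy] at ht
    obtain ⟨i, h1, h2⟩ := ht
    exact ⟨i, h1.mono hs, h2.mono hs⟩

end H31Z.OCA
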