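import Pool.Agent.H31Z.OCA.Stage

/-!
# The generic bookkeeping and the forcing notion
-/

set_option autoImplicit false
set_option linter.unusedSectionVars false

namespace H31Z.OCA

open Pool.Agent.Helper292.ForceCH Classical Cardinal

/-- the cardinal `2 ^ ℵ₁` -/
noncomputable def lam : Cardinal.{0} := #(Set Om)

/-- small types -/
def Sm (T : Type) : Prop := #T ≤ lam

theorem aleph0_le_Om : ℵ₀ ≤ #Om := by
  rw [mk_toType, card_ord]
  exact aleph0_le_aleph 1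

theorem lam_eq : lam = 2 ^ #Om := by simp [lam]

theorem Om_le_lam : #Om ≤ lam := by rw [lam_eq]; exact (cantor _).le

theorem aleph0_le_lam : ℵ₀ ≤ lam := aleph0_le_Om.trans Om_le_lam

theorem Sm.of_inj {T T' : Type} (h : Sm T') (f : T → T') (hf : Function.Injective f) : Sm T :=
  (mk_le_of_injective hf).trans h

theorem Sm.of_surj {T T' : Type} (h : Sm T) (f : T → T') (hf : Function.Surjective f) : Sm T' :=
  (mk_le_of_surjective hf).trans h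

theorem Sm.prod {T T' : Type} (h : Sm T) (h' : Sm T') : Sm (T × T') := by
  unfold Sm at *
  rw [mk_prod, lift_id, lift_id]
  exact (mul_le_mul' h h').trans (mul_eq_self aleph0_le_lam).le

theorem Sm.fn {J T : Type} (hJ : #J ≤ #Om) (h : Sm T) : Sm (J → T) := by
  unfold Sm at *
  rw [← power_def]
  have h0 : lam ≠ 0 := ne_of_gt (aleph0_pos.trans_le aleph0_le_lam)
  refine (power_le_power_right h).trans ((power_le_power_left h0 hJ).trans ?_)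
  rw [lam_eq, ← power_mul, mul_eq_self aleph0_le_Om]

theorem Sm.list {T : Type} (h : Sm T) : Sm (List T) :=
  (mk_list_le_max T).trans (max_le aleph0_le_lam h)

theorem Sm.finset {T : Type} (h : Sm T) : Sm (Finset T) :=
  h.list.of_surj List.toFinset List.toFinset_surjective

theorem Sm.option {T : Type} (h : Sm T) : Sm (Option T) :=
  h.list.of_inj Option.toList (by rintro (_ | a) (_ | b) h <;> simp_all)

theorem sm_Om : Sm Om := Om_le_lam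

theorem sm_Cond : Sm Cond := sm_Om.prod (Sm.fn le_rfl (le_refl lam))

/-- the well-order of type `(2 ^ ℵ₁)⁺` -/
abbrev II : Type := (Order.succ lam).ord.ToType

theorem sm_Iio (a : II) : Sm (Set.Iio a) := Order.lt_succ_iff.1 (mk_Iio_toType_ord_lt a)

theorem exists_bound' {T : Type} (hT : Sm T) (f : T → II) : ∃ a : II, ∀ t, f t < a := by
  by_contra hc
  push Not at hc
  have h2 : (Set.univ : Set II) ⊆ ⋃ t, Set.Iic (f t) := by
    intro a _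
    obtain ⟨t, ht⟩ := hc a
    exact Set.mem_iUnion.2 ⟨t, ht⟩
  have h3 : ∀ t, #(Set.Iic (f t)) ≤ lam := by
    intro t
    rw [← Set.Iio_insert]
    exact mk_insert_le.trans ((add_le_add (sm_Iio _) (one_le_aleph0.trans aleph0_le_lam)).trans
      (add_eq_self aleph0_le_lam).le)
  have h4 : #(⋃ t, Set.Iic (f t) : Set II) ≤ lam :=
    mk_iUnion_le_sum_mk.trans ((sum_le_sum _ _ h3).trans (by
      rw [sum_const']
      exact (mul_le_mul' hT le_rfl).trans (mul_eq_self aleph0_le_lam).le))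
  have h5 := (mk_le_mk_of_subset h2).trans h4
  rw [mk_univ, mk_toType, card_ord] at h5
  exact absurd h5 (not_le.2 (Order.lt_succ lam))

/-- raw conditions of the iteration -/
abbrev W : Type := Raw Cond II

theorem sm_In (a : II) : Sm {w : W // In (Set.Iio a) w} := by
  refine (sm_Cond.prod ((sm_Iio a).prod sm_Om).finset).of_surj
    (fun x => ⟨⟨x.1, x.2.image fun z => (z.1.1, z.2)⟩, ?_⟩) ?_
  · intro z hz
    obtain ⟨z', -, rfl⟩ := Finset.mem_image.1 hz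
    exact z'.1.2
  · rintro ⟨⟨h, p⟩, hp⟩
    refine ⟨⟨h, p.attach.image fun z => (⟨z.1.1, hp _ z.2⟩, z.1.2)⟩, Subtype.ext ?_⟩
    simp only [Finset.image_image]
    congr 1
    ext z
    simp [Function.comp_def]

theorem sm_names (J : Type) [Countable J] (a : II) :
    Sm {t : J → Option W // ∀ j w, t j = some w → In (Set.Iio a) w} := by
  refine (Sm.fn (J := J) (mk_le_aleph0.trans aleph0_le_Om) (sm_In a).option).of_surj
    (fun x => ⟨fun j => (x j).map Subtype.val, ?_⟩) ?_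
  · intro j w hw
    obtain ⟨w', -, rfl⟩ := Option.map_eq_some_iff.1 hw
    exact w'.2
  · rintro ⟨t, ht⟩
    refine ⟨fun j => (t j).pmap (fun w hw => ⟨w, hw⟩) (fun w hw => ht j w hw), Subtype.ext ?_⟩
    funext j
    simp only [Option.map_pmap, Option.pmap_eq_map, Option.map_id_fun', id]

/-- initial segments of the bookkeeping -/
structure GG where
  α : II
  N : II → Stage Cond II

instance : Preorder GG where
  le g' g := g.α ≤ g'.α ∧ ∀ a < g.α, g'.N a = g.N a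
  le_refl _ := ⟨le_rfl, fun _ _ => rfl⟩
  le_trans _ _ _ h h' := ⟨h'.1.trans h.1, fun a ha =>
    (h.2 a (ha.trans_le h'.1)).trans (h'.2 a ha)⟩

instance : Nonempty (Stage Cond II) :=
  ⟨⟨⟨Classical.arbitrary Cond, ∅⟩, fun _ _ => ∅, fun _ _ => ∅⟩⟩

instance : Nonempty II := by
  obtain ⟨a, -⟩ := exists_bound' (T := Empty) (by simp [Sm]) Empty.elim
  exact ⟨a⟩

instance : Nonempty GG := ⟨⟨Classical.arbitrary II, fun _ => Classical.arbitrary _⟩⟩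

theorem exists_lb {T : Type} (hT : Sm T) (f : T → GG) (hch : ∀ s t, f s ≤ f t ∨ f t ≤ f s) :
    ∃ g, (∀ t, g ≤ f t) ∧ ∀ a < g.α, ∃ t, a < (f t).α := by
  have hne : {a : II | ∀ t, (f t).α ≤ a}.Nonempty := by
    obtain ⟨a, ha⟩ := exists_bound' hT fun t => (f t).α
    exact ⟨a, fun t => (ha t).le⟩
  refine ⟨⟨(wellFounded_lt (α := II)).min _ hne, fun a =>
    if h : ∃ t, a < (f t).α then (f h.choose).N a else Classical.arbitrary _⟩, fun t =>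
    ⟨(wellFounded_lt (α := II)).min_mem _ hne t, fun a ha => ?_⟩, fun a ha => ?_⟩
  · have h : ∃ t, a < (f t).α := ⟨t, ha⟩
    simp only [dif_pos h]
    rcases hch h.choose t with h' | h'
    · exact h'.2 a ha
    · exact (h'.2 a h.choose_spec).symm
  · by_contra hc
    push Not at hc
    exact (wellFounded_lt (α := II)).not_lt_min (s := {a : II | ∀ t, (f t).α ≤ a}) hc ha

theorem chain_rec {T : Type} [LinearOrder T] [WellFoundedLT T] (hT : Sm T) (g0 : GG)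
    (R : T → GG → GG → Prop) (hR : ∀ t g, ∃ g' ≤ g, R t g g') :
    ∃ (f pre : T → GG) (g : GG), (∀ t, pre t ≤ g0 ∧ (∀ s < t, pre t ≤ f s) ∧ R t (pre t) (f t)) ∧
      g ≤ g0 ∧ (∀ t, g ≤ f t) ∧ ∀ a < g.α, a < g0.α ∨ ∃ t, a < (f t).α := by
  choose st hst1 hst2 using hR
  let f : T → GG := (wellFounded_lt (α := T)).fix (C := fun _ => GG) fun t rec =>
    st t (Classical.epsilon fun g => g ≤ g0 ∧ ∀ s (h : s < t), g ≤ rec s h)
  let pre : T → GG := fun t => Classical.epsilon fun g => g ≤ g0 ∧ ∀ s, s < t → g ≤ f s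
  have hf : ∀ t, f t = st t (pre t) := fun t => by
    simp only [f]
    rw [WellFounded.fix_eq]
  have hle : ∀ t, f t ≤ pre t := fun t => by rw [hf]; exact hst1 _ _
  have lb : ∀ S : Set T, (∀ t ∈ S, pre t ≤ g0 ∧ ∀ s, s < t → pre t ≤ f s) →
      ∃ g, g ≤ g0 ∧ (∀ t ∈ S, g ≤ f t) ∧ ∀ a < g.α, a < g0.α ∨ ∃ t, a < (f t).α := by
    intro S hS
    obtain ⟨g, h1, h2⟩ := exists_lb (T := Option S) (hT.of_inj Subtype.val Subtype.val_injective).option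
      (fun o => o.elim g0 fun t => f t) (by
        rintro (_ | s) (_ | t)
        · exact Or.inl le_rfl
        · exact Or.inr ((hle t).trans (hS t t.2).1)
        · exact Or.inl ((hle s).trans (hS s s.2).1)
        · rcases lt_trichotomy (s : T) t with h | h | h
          · exact Or.inr ((hle t).trans ((hS t t.2).2 s h))
          · exact Or.inl (by simp only [Option.elim, h]; exact le_rfl)
          · exact Or.inl ((hle s).trans ((hS s s.2).2 t h)))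
    refine ⟨g, h1 none, fun t ht => h1 (some ⟨t, ht⟩), fun a ha => ?_⟩
    obtain ⟨_ | t, ht⟩ := h2 a ha
    · exact Or.inl ht
    · exact Or.inr ⟨t, ht⟩
  have key : ∀ t, pre t ≤ g0 ∧ ∀ s, s < t → pre t ≤ f s := by
    intro t
    induction t using WellFoundedLT.induction with
    | ind t ih =>
      obtain ⟨g, h1, h2, -⟩ := lb (Set.Iio t) ih
      exact Classical.epsilon_spec (p := fun g => g ≤ g0 ∧ ∀ s, s < t → g ≤ f s) ⟨g, h1, h2⟩
  obtain ⟨g, h1, h2, h3⟩ := lb Set.univ fun t _ => key t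
  exact ⟨f, pre, g, fun t => ⟨(key t).1, (key t).2, by rw [hf]; exact hst2 _ _⟩, h1,
    fun t => h2 t trivial, h3⟩

theorem distrib {T : Type} (hT : Sm T) (O : T → Set GG) (hO : ∀ t, Down (O t))
    (hd : ∀ t g, ∃ g' ≤ g, g' ∈ O t) (g0 : GG) : ∃ g ≤ g0, ∀ t, g ∈ O t := by
  obtain ⟨_, _⟩ := exists_wellFoundedLT T
  obtain ⟨f, pre, g, h1, h2, h3, -⟩ := chain_rec hT g0 (fun t _ g' => g' ∈ O t) hd
  exact ⟨g, h2, fun t => hO t _ (h1 t).2.2 _ (h3 t)⟩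

theorem bound_c {Z : Type} {A : Set Z} (hA : A.Countable) (k : Z → Om) :
    ∃ ξ, ∀ a ∈ A, k a < ξ := by
  rcases A.eq_empty_or_nonempty with rfl | hne
  · exact ⟨Classical.arbitrary Om, fun a ha => ha.elim⟩
  obtain ⟨e, rfl⟩ := hA.exists_eq_range hne
  obtain ⟨ξ, hξ⟩ := exists_bound fun n => k (e n)
  exact ⟨ξ, by rintro _ ⟨n, rfl⟩; exact hξ n⟩

theorem gclosure {Tk : Type} (sp : Tk → Set II) (hsp : ∀ t, (sp t).Countable)
    (hc : ∀ a, Sm {t // sp t ⊆ Set.Iio a}) (O : Tk → Set GG) (hO : ∀ t, Down (O t))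
    (hd : ∀ t g, ∃ g' ≤ g, g' ∈ O t) (g0 : GG) :
    ∃ g ≤ g0, ∀ t, sp t ⊆ Set.Iio g.α → g ∈ O t := by
  obtain ⟨f, pre, g, h1, h2, h3, h4⟩ := chain_rec sm_Om g0
    (fun _ g g' => ∀ t, sp t ⊆ Set.Iio g.α → g' ∈ O t) (by
      intro _ g
      obtain ⟨g', hg', H⟩ := distrib (hc g.α) (fun t => O t.1) (fun t => hO _) (fun t => hd _) g
      exact ⟨g', hg', fun t ht => H ⟨t, ht⟩⟩)
  refine ⟨g, h2, fun t ht => ?_⟩
  have : ∀ a, ∃ ξ, a ∈ sp t → a < g0.α ∨ a < (f ξ).α := by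
    intro a
    by_cases ha : a ∈ sp t
    · rcases h4 a (ht ha) with h | ⟨ξ, h⟩
      · exact ⟨Classical.arbitrary Om, fun _ => Or.inl h⟩
      · exact ⟨ξ, fun _ => Or.inr h⟩
    · exact ⟨Classical.arbitrary Om, fun h => absurd h ha⟩
  choose k hk using this
  obtain ⟨ξ, hξ⟩ := bound_c (hsp t) k
  refine hO t _ ((h1 ξ).2.2 t fun a ha => ?_) _ (h3 ξ)
  rcases hk a ha with h | h
  · exact h.trans_le (h1 ξ).1.1
  · exact h.trans_le ((h1 ξ).2.1 _ (hξ a ha)).1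

/-- the valid conditions of the iteration given by `g` -/
def VV (g : GG) : Set W := VS g.N (Set.Iio g.α)

theorem VV_eq {g g' : GG} (h : g' ≤ g) : VS g'.N (Set.Iio g.α) = VV g := VS_congr _ h.2

theorem VV_mono {g g' : GG} (h : g' ≤ g) : VV g ⊆ VV g' := by
  rw [← VV_eq h]
  exact VS_mono (Set.Iio_subset_Iio h.1)

theorem VV_res {g g' : GG} (h : g' ≤ g) {w : W} (hw : w ∈ VV g') :
    res (Set.Iio g.α) w ∈ VV g := by
  rw [← VV_eq h]
  exact res_mem (isLowerSet_Iio _) hw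

/-- the forcing notion -/
structure Top where
  g : GG
  w : W
  hw : w ∈ VV g

instance : Preorder Top where
  le c' c := c'.g ≤ c.g ∧ c'.w ≤ c.w
  le_refl _ := ⟨le_rfl, le_rfl⟩
  le_trans _ _ _ h h' := ⟨h.1.trans h'.1, h.2.trans h'.2⟩

instance : Nonempty Top :=
  ⟨⟨Classical.arbitrary GG, ⟨Classical.arbitrary Cond, ∅⟩, fun _ h => by simp at h,
    fun _ => ok_none fun _ h => by simp at h⟩⟩

theorem top_amalg (c : Top) {g : GG} (hg : c.g ≤ g) {s : W} (hs : s ∈ VV g)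
    (h : s ≤ res (Set.Iio g.α) c.w) : ∃ c' ≤ c, c'.w ≤ s := by
  rw [← VV_eq hg] at hs
  obtain ⟨q, hq, h1, h2⟩ := amalg (Set.Iio_subset_Iio hg.1) hs c.hw h
  exact ⟨⟨c.g, q, hq⟩, ⟨le_rfl, h2⟩, h1⟩

theorem reflect {Tk : Type} (sp : Tk → Set II) (hsp : ∀ t, (sp t).Countable)
    (hc : ∀ a, Sm {t // sp t ⊆ Set.Iio a}) (D : Tk → Set Top) (hD : ∀ t, Down (D t)) (g0 : GG) :
    ∃ g ≤ g0, ∀ t, sp t ⊆ Set.Iio g.α → ∀ w ∈ VV g, (∃ c ∈ D t, c.g ≤ g ∧ c.w ≤ w) →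
      ∃ w', ∃ hw' : w' ∈ VV g, w' ≤ w ∧ (⟨g, w', hw'⟩ : Top) ∈ D t := by
  obtain ⟨g, hg, H⟩ := gclosure (Tk := Tk × W)
    (fun t => sp t.1 ∪ Prod.fst '' (t.2.p : Set (II × Om)))
    (fun t => (hsp _).union (t.2.p.finite_toSet.image _).countable)
    (fun a => ((hc a).prod (sm_In a)).of_inj
      (fun t => (⟨t.1.1, fun z hz => t.2 (Or.inl hz)⟩,
        ⟨t.1.2, fun z hz => t.2 (Or.inr ⟨z, hz, rfl⟩)⟩))
      (by
        rintro ⟨⟨t, w⟩, _⟩ ⟨⟨t', w'⟩, _⟩ h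
        simpa using h))
    (fun t => {g | (∃ c ∈ D t.1, g ≤ c.g ∧ c.w ≤ t.2) ∨ ¬ ∃ c ∈ D t.1, c.g ≤ g ∧ c.w ≤ t.2})
    (by
      rintro t g (⟨c, h1, h2, h3⟩ | h) g' hg'
      · exact Or.inl ⟨c, h1, hg'.trans h2, h3⟩
      · exact Or.inr fun ⟨c, h1, h2, h3⟩ => h ⟨c, h1, h2.trans hg', h3⟩)
    (by
      intro t g
      by_cases h : ∃ c ∈ D t.1, c.g ≤ g ∧ c.w ≤ t.2
      · obtain ⟨c, h1, h2, h3⟩ := h
        exact ⟨c.g, h2, Or.inl ⟨c, h1, le_rfl, h3⟩⟩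
      · exact ⟨g, le_rfl, Or.inr h⟩) g0
  refine ⟨g, hg, fun t ht w hw h => ?_⟩
  rcases H (t, w) (by
    rintro z (hz | ⟨x, hx, rfl⟩)
    · exact ht hz
    · exact hw.1 x hx) with ⟨c, h1, h2, h3⟩ | h'
  · exact ⟨c.w, VV_mono h2 c.hw, h3, hD t _ h1 _ ⟨h2, le_rfl⟩⟩
  · exact absurd h h'

/-- below `c` the sentence `φ` is captured by the set `B` of conditions of the iteration -/
def Nice (c : Top) (φ : Set Top) (B : Set W) : Prop :=
  B ⊆ VV c.g ∧ (∀ b ∈ B, ∀ c' : Top, c'.g ≤ c.g → c'.w ≤ b → c' ∈ φ) ∧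
    ∀ c' ≤ c, c' ∈ φ → ∃ c'' ≤ c', Has B c''.w

theorem Nice.mono {c c' : Top} {φ : Set Top} {B : Set W} (h : Nice c φ B) (hc : c' ≤ c) :
    Nice c' φ B :=
  ⟨h.1.trans (VV_mono hc.1), fun b hb d h1 h2 => h.2.1 b hb d (h1.trans hc.1) h2,
    fun d hd => h.2.2 d (hd.trans hc)⟩

theorem exists_nice {J : Type} [Countable J] (φ : J → Set Top) (hφ : ∀ j, Down (φ j)) (c : Top) :
    ∃ c' ≤ c, c'.w.p = c.w.p ∧ ∃ B : J → Set W, ∀ j, (B j).Countable ∧ Nice c' (φ j) (B j) := by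
  obtain ⟨g, hg, H⟩ := reflect (Tk := J) (fun _ => ∅) (fun _ => Set.countable_empty)
    (fun a => mk_le_aleph0.trans aleph0_le_lam) φ hφ c.g
  obtain ⟨h', hh', B, hB⟩ := sp_many sigmaClosed (sp_Iio (N := g.N) sigmaClosed g.α)
    (fun j => {w | ∃ hw : w ∈ VV g, (⟨g, w, hw⟩ : Top) ∈ φ j}) c.w.h
  refine ⟨⟨g, ⟨h', c.w.p⟩, shrink_mem (VV_mono hg c.hw) hh'⟩, ⟨hg, hh', Finset.Subset.refl _⟩, rfl,
    B, fun j => ⟨(hB j).2.1, (hB j).1, fun b hb d h1 h2 => ?_, fun d hd hdφ => ?_⟩⟩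
  · obtain ⟨t, ⟨ht, h3⟩, h4⟩ := (hB j).2.2.1 b hb
    exact hφ j _ h3 _ ⟨h1, h2.trans h4⟩
  · obtain ⟨w', hw', h1, h2⟩ := H j (Set.empty_subset _) _ (VV_res hd.1 d.hw)
      ⟨d, hdφ, hd.1, le_res _ _⟩
    obtain ⟨s, hs, h3, h4⟩ := (hB j).2.2.2 w' hw' (h1.1.trans hd.2.1) (has_self ⟨hw', h2⟩)
    obtain ⟨d', h5, h6⟩ := top_amalg d hd.1 hs (h3.trans h1)
    exact ⟨d', h5, h4.mono h6⟩

theorem bounded (ψ : ℕ → Om → Set Top) (hψ : ∀ n ξ, Down (ψ n ξ))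
    (hf : ∀ n ξ η c, c ∈ ψ n ξ → c ∈ ψ n η → ξ = η) (c : Top) :
    ∃ c' ≤ c, ∃ δ, ∀ c'' ≤ c', ∀ n ξ, c'' ∈ ψ n ξ → ξ < δ := by
  obtain ⟨c', hc', -, B, hB⟩ := exists_nice (fun n => {c | ∃ ξ, c ∈ ψ n ξ})
    (fun n c ⟨ξ, h⟩ d hd => ⟨ξ, hψ n ξ _ h _ hd⟩) c
  have : ∀ x : ℕ × W, ∃ ξ, ∀ hb : x.2 ∈ B x.1, (⟨c'.g, x.2, (hB x.1).2.1 hb⟩ : Top) ∈ ψ x.1 ξ := by
    rintro ⟨n, b⟩
    by_cases hb : b ∈ B n
    · obtain ⟨ξ, h⟩ := (hB n).2.2.1 b hb ⟨c'.g, b, (hB n).2.1 hb⟩ le_rfl le_rfl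
      exact ⟨ξ, fun _ => h⟩
    · exact ⟨Classical.arbitrary Om, fun h => absurd h hb⟩
  choose k hk using this
  have hA : {x : ℕ × W | x.2 ∈ B x.1}.Countable := by
    refine (Set.countable_iUnion fun n => ((hB n).1.image (Prod.mk n))).mono ?_
    rintro ⟨n, b⟩ hb
    exact Set.mem_iUnion.2 ⟨n, b, hb, rfl⟩
  obtain ⟨δ, hδ⟩ := bound_c hA k
  refine ⟨c', hc', δ, fun d hd n ξ h => ?_⟩
  obtain ⟨d', h1, b, hb, h2⟩ := (hB n).2.2.2 d hd ⟨ξ, h⟩
  have e := hf n ξ (k (n, b)) d' (hψ _ _ _ h _ h1)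
    (hψ _ _ _ (hk (n, b) hb) _ ⟨h1.1.trans hd.1, h2⟩)
  rw [e]
  exact hδ (n, b) hb

theorem omegaOne (c : Top) : c ∈ OmegaOnePreserved Top := by
  intro q _ hq
  obtain ⟨r, _, R, hR, hR'⟩ := mem_fex.1 hq q le_rfl
  obtain ⟨c', hc', δ, H⟩ := bounded (fun n ξ => {d | d ≤ r ∧ d ∈ meets (R n ξ)})
    (fun n ξ d hd e he => ⟨he.trans hd.1, down_meets _ _ hd.2 _ he⟩)
    (fun n ξ η d h1 h2 => by
      obtain ⟨_, _, h3⟩ := mem_fimp.1 (hR.2 n ξ η) d h1.1 ⟨h1.2, h2.2⟩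
      exact h3) r
  obtain ⟨d, hd, n, hn⟩ := mem_fex.1 (hR' δ) c' hc'
  exact lt_irrefl _ (H d hd n δ ⟨hd.trans hc', hn⟩)

end H31Z.OCA
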